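import Pool.Agent.Lib.MP_799fdf_al.Tw.CP

/-! # The condition -/

set_option autoImplicit false

open scoped commutatorElement

namespace MP799fdf

namespace Tz

open Inn
open Tw (sup_comap sup_le_cen)

/-- `H / Y` is centralised by all `c` that are central modulo `L C(L)` -/
def BC {K : Type} [Group K] {L N : Subgroup K} (h : Loc L N) {H Y : Subgroup K} (hY : Y.Normal) :
    Prop :=
  ∀ c : K, (∀ g : K, ⁅c, g⁆ ∈ L ⊔ cen L N h.nN) → c ∈ cen H Y hY

/-- `N` is central in `L`, and for every section `H / Y` of `N` that is centralised by all elements that are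
central modulo `L C(L)`, and every prime `p` that divides `|H / Y|`, the index of `L C(L)` in the centraliser of
`H / Y` is not divisible by `p`. -/
def Dg {K : Type} [Group K] {L N : Subgroup K} (h : Loc L N) : Prop :=
  ⁅N, L⁆ = ⊥ ∧ ∀ (H Y : Subgroup K) (_ : H.Normal) (hY : Y.Normal), Y < H → H ≤ N →
    BC h (H := H) hY →
    ∀ p : ℕ, p.Prime → p ∣ Y.relIndex H → ¬ p ∣ (L ⊔ cen L N h.nN).relIndex (cen H Y hY)

/-- the condition -/
def DP (K : Type) [Group K] : Prop := ∀ (L N : Subgroup K) (h : Loc L N), Dg h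

end Tz

end MP799fdf
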