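import Pool.Agent.Lib.MP_799fdf_al.Tz.Defs
import Pool.Agent.Lib.MP_799fdf_al.Tz.CP
import Pool.Agent.Lib.MP_799fdf_al.Tw.BuildB

/-! # The data of the engine: inner twists -/

set_option autoImplicit false

open scoped commutatorElement

namespace MP799fdf

namespace Tz

open Inn
open Cop (TT TA TY)
open Tw (TB TC)

/-- the local subgroups -/
abbrev LI (K : Type) [Group K] : Type := {L : Subgroup K // ∃ N, Loc L N}

/-- the elements that are central modulo `L C(L)` -/
def QL {K : Type} [Group K] (i : LI K) : Type :=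
  {c : K // ∀ g : K, ⁅c, g⁆ ∈ i.1 ⊔ Subgroup.centralizer (i.1 : Set K)}

instance {K : Type} [Group K] [Finite K] (i : LI K) : Finite (QL i) :=
  inferInstanceAs (Finite (Subtype _))

/-- the local subgroup as a type -/
def WL {K : Type} [Group K] (i : LI K) : Type := i.1

instance {K : Type} [Group K] (i : LI K) : Group (WL i) := inferInstanceAs (Group i.1)

/-- the element of `K` -/
def WL.val {K : Type} [Group K] {i : LI K} (x : WL i) : K :=
  Subtype.val (p := fun x => x ∈ i.1) x

/-- the element of `K` -/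
def QL.val {K : Type} [Group K] {i : LI K} (x : QL i) : K :=
  Subtype.val (p := fun c => ∀ g : K, ⁅c, g⁆ ∈ i.1 ⊔ Subgroup.centralizer (i.1 : Set K)) x

theorem QL.prop {K : Type} [Group K] {i : LI K} (x : QL i) (g : K) :
    ⁅x.val, g⁆ ∈ i.1 ⊔ Subgroup.centralizer (i.1 : Set K) :=
  Subtype.property (p := fun c => ∀ g : K, ⁅c, g⁆ ∈ i.1 ⊔ Subgroup.centralizer (i.1 : Set K)) x g

theorem cen_eq {K : Type} [Group K] {L N : Subgroup K} (h : Loc L N) (hN : ⁅N, L⁆ = ⊥) :
    cen L N h.nN = Subgroup.centralizer (L : Set K) := by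
  ext x
  rw [Cop.cen_iff h hN x, Subgroup.mem_centralizer_iff]
  exact ⟨fun hx y hy => (hx y hy).symm, fun hx y hy => (hx y hy).symm⟩

theorem exists_eng (G : Type) [Group G] [Finite G] (K : Type) [Group K] [Finite K]
    (h1 : ∀ L N : Subgroup K, Loc L N → ⁅N, L⁆ = ⊥) (h2 : TY G K) :
    ∃ D : Eng K (LI K) (TT G) (TA G) (TC G) WL QL,
      (∀ i, D.R i = i.1) ∧
      (∀ i N (h : Loc i.1 N) x, D.al i x = 1 ↔ x ∈ cen i.1 N h.nN) ∧
      (∀ i N (h : Loc i.1 N), (D.rho i).ker = i.1 ⊔ cen i.1 N h.nN) ∧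
      (∀ i (x : WL i), (D.pr i x : K) = x.val) ∧
      ∀ i (q : QL i) (x : WL i), (D.pr i (D.tw i q x) : K) = q.val * x.val * q.val⁻¹ := by
  classical
  choose N hN using fun i : LI K => i.2
  choose t a ha hk hm using fun i : LI K => h2 i.1 (N i) (hN i)
  have hNN : ∀ i M, Loc i.1 M → M = N i := by
    intro i M hM
    apply le_antisymm
    · rcases (hN i).max M hM.nN hM.lt.le with h3 | h3
      · exact h3
      · exact absurd hM.lt (by rw [h3]; exact lt_irrefl _)
    · rcases hM.max (N i) (hN i).nN (hN i).lt.le with h3 | h3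
      · exact h3
      · exact absurd (hN i).lt (by rw [h3]; exact lt_irrefl _)
  have hker : ∀ i, (a i).ker = cen i.1 (N i) (hN i).nN := by
    intro i
    ext x
    rw [MonoidHom.mem_ker]
    exact hk i x
  have hB : ∀ i, TB G (t i) = i.1.map (a i) := fun i => (hm i).symm
  have hrk : ∀ i, ((QuotientGroup.mk' (TB G (t i))).comp (a i)).ker =
      i.1 ⊔ cen i.1 (N i) (hN i).nN := by
    intro i
    rw [← hker i, ← MonoidHom.comap_ker, QuotientGroup.ker_mk', hB, Subgroup.comap_map_eq]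
  have hcom : ∀ i x, a i x = 1 → ∀ y ∈ i.1, Commute x y := fun i x hx =>
    (Cop.cen_iff (hN i) (h1 i.1 (N i) (hN i)) x).1 ((hk i x).1 hx)
  have hn : ∀ i : LI K, (i.1).Normal := fun i => (hN i).nR
  obtain ⟨n, hn'⟩ := Cop.solv_quot (⨆ i : LI K, i.1)
    (by infer_instance)
    (fun L M h => le_iSup (fun i : LI K => i.1) ⟨L, M, h⟩)
  have huta : ∀ i (q : QL i) (x : TA G (t i)),
      QuotientGroup.mk' (TB G (t i)) (a i q.val * x * (a i q.val)⁻¹) =
        QuotientGroup.mk' (TB G (t i)) x := by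
    intro i q x
    obtain ⟨g, rfl⟩ := ha i x
    have h3 : ⁅q.val, g⁆ ∈ ((QuotientGroup.mk' (TB G (t i))).comp (a i)).ker := by
      rw [hrk i, cen_eq (hN i) (h1 i.1 (N i) (hN i))]
      exact q.prop g
    rw [MonoidHom.mem_ker] at h3
    have h4 : a i q.val * a i g * (a i q.val)⁻¹ = a i ⁅q.val, g⁆ * a i g := by
      rw [commutatorElement_def, map_mul, map_mul, map_mul, map_inv, map_inv]
      group
    rw [h4, map_mul]
    have h5 : QuotientGroup.mk' (TB G (t i)) (a i ⁅q.val, g⁆) = 1 := h3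
    rw [h5, one_mul]
  have hconj0 : ∀ i (α : TA G (t i)), ∃ κ : i.1 →* i.1, ∀ (q k : K),
      a i k = a i q * α * (a i q)⁻¹ → ∀ x : i.1,
        q * ((κ x : i.1) : K) * q⁻¹ = k * (q * (x : K) * q⁻¹) * k⁻¹ := by
    intro i α
    obtain ⟨k₀, rfl⟩ := ha i α
    refine ⟨(MulAut.conjNormal k₀ : MulAut i.1).toMonoidHom, fun q k hkk x => ?_⟩
    have e0 : (((MulAut.conjNormal k₀ : MulAut i.1).toMonoidHom x : i.1) : K) =
        k₀ * x * k₀⁻¹ := rfl
    rw [e0]
    have h3 : a i ((q * k₀ * q⁻¹)⁻¹ * k) = 1 := by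
      rw [map_mul, hkk, map_inv, map_mul, map_mul, map_inv]
      group
    have h5 := hcom i _ h3 (q * x * q⁻¹) ((hn i).conj_mem _ x.2 q)
    obtain ⟨w, hw⟩ : ∃ w, w = (q * k₀ * q⁻¹)⁻¹ * k := ⟨_, rfl⟩
    rw [← hw] at h5
    have h6 : k = q * k₀ * q⁻¹ * w := by rw [hw]; group
    have h7 : w * (q * x * q⁻¹) * w⁻¹ = q * x * q⁻¹ := by
      rw [h5.eq, mul_inv_cancel_right]
    rw [h6]
    calc q * (k₀ * x * k₀⁻¹) * q⁻¹
        = q * k₀ * q⁻¹ * (q * x * q⁻¹) * (q * k₀ * q⁻¹)⁻¹ := by group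
      _ = q * k₀ * q⁻¹ * (w * (q * x * q⁻¹) * w⁻¹) *
          (q * k₀ * q⁻¹)⁻¹ := by rw [h7]
      _ = _ := by group
  have hmapR : ∀ i (x : TA G (t i)),
      QuotientGroup.mk' (TB G (t i)) x = 1 ↔ ∃ r ∈ i.1, a i r = x := by
    intro i x
    rw [QuotientGroup.mk'_apply, QuotientGroup.eq_one_iff, hB]
    exact Subgroup.mem_map
  have hkk : ∀ i x, a i x = 1 ↔ ∀ y ∈ i.1, Commute x y := by
    intro i x
    rw [hk i x]
    exact Cop.cen_iff (hN i) (h1 i.1 (N i) (hN i)) x
  have hcc : ∀ i j : LI K, i ≠ j → ∀ x ∈ i.1, ∀ y ∈ j.1,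
      Commute x y := fun i j hij x hx y hy =>
    Cop.loc_comm (hN i) (hN j) (h1 i.1 (N i) (hN i)) (h1 j.1 (N j) (hN j))
      (fun h => hij (Subtype.ext h)) x hx y hy
  let pr : ∀ i : LI K, WL i →* i.1 := fun i => MonoidHom.id i.1
  let tw : ∀ i : LI K, QL i → WL i →* WL i := fun i q =>
    (MulAut.conjNormal q.val : MulAut i.1).toMonoidHom
  have hpr : ∀ i (x : WL i), (pr i x : K) = x.val := fun i x => rfl
  have htw : ∀ i (q : QL i) (x : WL i), (tw i q x).val = q.val * x.val * q.val⁻¹ :=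
    fun i q x => rfl
  have hinj : ∀ (i : LI K) (x y : WL i), x.val = y.val → x = y := fun i x y h => Subtype.ext h
  have hone : ∀ (i : LI K) (g : K), ⁅(1 : K), g⁆ ∈ i.1 ⊔ Subgroup.centralizer (i.1 : Set K) := by
    intro i g
    rw [commutatorElement_one_left]
    exact Subgroup.one_mem _
  let q₀ : ∀ i : LI K, QL i := fun i => ⟨1, hone i⟩
  have hq₀ : ∀ i : LI K, (q₀ i).val = 1 := fun i => rfl
  have htw0 : ∀ i (x : WL i), tw i (q₀ i) x = x := by
    intro i x
    apply hinj
    rw [htw, hq₀, one_mul, inv_one, mul_one]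
  have hprs : ∀ i, Function.Surjective (pr i) := fun i => Function.surjective_id
  have hta0 : ∀ i (x : TA G (t i)), MulAut.conj (a i (q₀ i).val) x = x := by
    intro i x
    rw [hq₀, map_one, map_one]
    rfl
  have hcomp : ∀ i (q : QL i) (x : WL i),
      a i (pr i (tw i q x)) = MulAut.conj (a i q.val) (a i (pr i x)) := by
    intro i q x
    rw [hpr, hpr, htw, map_mul, map_mul, map_inv, MulAut.conj_apply]
  have hconj : ∀ i (α : TA G (t i)), ∃ κ : WL i →* WL i, ∀ (q : QL i) (k : K),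
      a i k = MulAut.conj (a i q.val) α → ∀ x : WL i,
        (pr i (tw i q (κ x)) : K) = k * pr i (tw i q x) * k⁻¹ := by
    intro i α
    obtain ⟨κ, hκ⟩ := hconj0 i α
    refine ⟨κ, fun q k hk' x => ?_⟩
    rw [hpr, hpr, htw, htw]
    exact hκ q.val k hk' x
  have huta' : ∀ i (q : QL i) (x : TA G (t i)),
      QuotientGroup.mk' (TB G (t i)) (MulAut.conj (a i q.val) x) =
        QuotientGroup.mk' (TB G (t i)) x := huta
  refine ⟨{ R := fun i => i.1
            t := t
            al := a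
            u := fun τ => QuotientGroup.mk' (TB G τ)
            nR := hn
            comm := hcc
            surj := ha
            usurj := fun τ => QuotientGroup.mk'_surjective (TB G τ)
            mapR := hmapR
            ker := hkk
            n := n
            solv := hn'
            pr := pr
            prs := hprs
            q₀ := q₀
            tw := tw
            ta := fun i q => MulAut.conj (a i q.val)
            tw₀ := htw0
            ta₀ := hta0
            uta := huta'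
            comp := hcomp
            conj := hconj }, fun i => rfl, fun i M hM x => ?_, fun i M hM => ?_,
            hpr, fun i q x => ?_⟩
  · have e := hNN i M hM
    subst e
    exact hk i x
  · have e := hNN i M hM
    subst e
    exact hrk i
  · show (pr i (tw i q x) : K) = _
    rw [hpr, htw]

end Tz

end MP799fdf
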