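import Pool.Agent.Lib.MP_799fdf_al.Tz.CPA
import Pool.Agent.Lib.MP_799fdf_al.Tz.CPB

/-! # The condition holds in form G -/

set_option autoImplicit false

open scoped commutatorElement

namespace MP799fdf

namespace Tz

open Inn
open Tw (sup_comap sup_le_cen)

/-- PROOF. Let `(L, N)` be local. `⁅N, L⁆ = ⊥`: its elements are mapped to `1` by `f` and by `g` (`dg_case`, or
`L ≤ ker`). Let `Y < H ≤ N`, `p ∣ Y.relIndex H`. `S = L ⊔ cen L N ≤ cen H₁ Y₁` for all sections `H₁ / Y₁` of `N`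
(`sup_le_cen`). If `L ≤ f.ker` then `¬ L ≤ g.ker` (else `L = ⊥`) and `H ⊓ g.ker = ⊥`, use `dg_case g`. If
`L ≤ g.ker`: the same with `f`. Otherwise let `H₁ = H ⊓ f.ker`, `Y₁ = Y ⊓ f.ker`. If `p ∣ Y₁.relIndex H₁` (so
`Y₁ < H₁`) then `H₁ ⊓ g.ker = ⊥`, so by `dg_case g` `p` does not divide `S.relIndex (cen H₁ Y₁)`, and
`cen H Y ≤ cen H₁ Y₁` (commutators with elements of `f.ker` are in `f.ker`); `Subgroup.relIndex_mul_relIndex`. If not, let
`H₂ = (H ⊓ f.ker) ⊔ Y`: `Y.relIndex H = Y.relIndex H₂ * H₂.relIndex H`, and `Y.relIndex H₂ = Y₁.relIndex H₁`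
(`Subgroup.relIndex_sup_left`, `relIndex_inf..`: `Y ⊓ (H ⊓ f.ker) = Y₁`), so `p ∣ H₂.relIndex H` (`H₂ < H`), and
`dg_case f` for `(H, H₂)` gives `¬ p ∣ S.relIndex (cen H H₂)`, with `cen H Y ≤ cen H H₂`. -/
theorem dp_sub {K A B : Type} [Group K] [Finite K] [Group A] [Finite A] [Group B] [Finite B]
    (f : K →* A) (g : K →* B) (hf : Function.Surjective f) (hg : Function.Surjective g)
    (hA : DP A) (hB : DP B) (h : ∀ x, f x = 1 → g x = 1 → x = 1) : DP K := by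
  intro L N hL
  have hLn := hL.nR
  have hcL : ⁅N, L⁆ ≤ L := Subgroup.commutator_le_right N L
  have hker : ∀ x, x ∈ f.ker → x ∈ g.ker → x = 1 := fun x hx hy =>
    h x (MonoidHom.mem_ker.1 hx) (MonoidHom.mem_ker.1 hy)
  have hN : ⁅N, L⁆ = ⊥ := by
    rw [eq_bot_iff]
    intro x hx
    refine Subgroup.mem_bot.2 (h x ?_ ?_)
    · by_cases hf1 : L ≤ f.ker
      · exact MonoidHom.mem_ker.1 (hf1 (hcL hx))
      · exact (dg_case f hf hA hL hf1).1 x hx
    · by_cases hg1 : L ≤ g.ker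
      · exact MonoidHom.mem_ker.1 (hg1 (hcL hx))
      · exact (dg_case g hg hB hL hg1).1 x hx
  refine ⟨hN, ?_⟩
  intro H Y hHn hYn hYH hHN hBC p hp hpd
  have hS := sup_le_cen hL hN hYn hHN
  by_cases hf1 : L ≤ f.ker
  · have hg1 : ¬ L ≤ g.ker := by
      intro hg1
      refine hL.lt.not_ge fun x hx => ?_
      rw [hker x (hf1 hx) (hg1 hx)]
      exact Subgroup.one_mem _
    refine (dg_case g hg hB hL hg1).2 H Y hHn hYn hYH hHN (fun x hx => ?_) hS hBC p hp hpd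
    obtain ⟨hx1, hx2⟩ := Subgroup.mem_inf.1 hx
    rw [hker x (hf1 (hL.lt.le (hHN hx1))) hx2]
    exact Subgroup.one_mem _
  by_cases hg1 : L ≤ g.ker
  · refine (dg_case f hf hA hL hf1).2 H Y hHn hYn hYH hHN (fun x hx => ?_) hS hBC p hp hpd
    obtain ⟨hx1, hx2⟩ := Subgroup.mem_inf.1 hx
    rw [hker x hx2 (hg1 (hL.lt.le (hHN hx1)))]
    exact Subgroup.one_mem _
  have hH1n : (H ⊓ f.ker).Normal := inferInstance
  have hY1n : (Y ⊓ f.ker).Normal := inferInstance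
  by_cases hp1 : p ∣ (Y ⊓ f.ker).relIndex (H ⊓ f.ker)
  · intro hcon
    have hle2 : cen H Y hYn ≤ cen (H ⊓ f.ker) (Y ⊓ f.ker) hY1n := by
      intro x hx
      rw [mem_cen] at hx ⊢
      intro y hy
      obtain ⟨hy1, hy2⟩ := Subgroup.mem_inf.1 hy
      refine Subgroup.mem_inf.2 ⟨hx y hy1, ?_⟩
      rw [MonoidHom.mem_ker, map_commutatorElement, MonoidHom.mem_ker.1 hy2,
        commutatorElement_one_right]
    have hle : Y ⊓ f.ker ≤ H ⊓ f.ker := inf_le_inf_right _ hYH.le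
    have hlt : Y ⊓ f.ker < H ⊓ f.ker := by
      refine lt_of_le_of_ne hle fun e => ?_
      rw [e, Subgroup.relIndex_self] at hp1
      exact hp.one_lt.ne' (Nat.dvd_one.1 hp1)
    have hHN1 : H ⊓ f.ker ≤ N := inf_le_left.trans hHN
    have hS1 := sup_le_cen hL hN hY1n hHN1
    refine (dg_case g hg hB hL hg1).2 (H ⊓ f.ker) (Y ⊓ f.ker) hH1n hY1n hlt hHN1
      (fun x hx => ?_) hS1 (fun c hc => hle2 (hBC c hc)) p hp hp1 ?_
    · obtain ⟨hx1, hx2⟩ := Subgroup.mem_inf.1 hx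
      rw [hker x (Subgroup.mem_inf.1 hx1).2 hx2]
      exact Subgroup.one_mem _
    · rw [← Subgroup.relIndex_mul_relIndex _ _ _ hS hle2]
      exact Dvd.dvd.mul_right hcon _
  · intro hcon
    have h2le : H ⊓ f.ker ⊔ Y ≤ H := sup_le inf_le_left hYH.le
    have hY2 : Y ≤ H ⊓ f.ker ⊔ Y := le_sup_right
    have h2n : (H ⊓ f.ker ⊔ Y).Normal := inferInstance
    have e1 : Y.relIndex (H ⊓ f.ker ⊔ Y) = (Y ⊓ f.ker).relIndex (H ⊓ f.ker) := by
      rw [Subgroup.relIndex_sup_right, ← Subgroup.inf_relIndex_right]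
      congr 1
      ext x
      simp only [Subgroup.mem_inf]
      constructor
      · rintro ⟨a, _, b⟩
        exact ⟨a, b⟩
      · rintro ⟨a, b⟩
        exact ⟨a, hYH.le a, b⟩
    have hp2 : p ∣ (H ⊓ f.ker ⊔ Y).relIndex H := by
      rw [← Subgroup.relIndex_mul_relIndex _ _ _ hY2 h2le, e1] at hpd
      exact (hp.dvd_mul.1 hpd).resolve_left hp1
    have hlt : H ⊓ f.ker ⊔ Y < H := by
      refine lt_of_le_of_ne h2le fun e => ?_
      rw [e, Subgroup.relIndex_self] at hp2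
      exact hp.one_lt.ne' (Nat.dvd_one.1 hp2)
    have hS2 := sup_le_cen hL hN h2n hHN
    have hle2 : cen H Y hYn ≤ cen H (H ⊓ f.ker ⊔ Y) h2n := by
      intro x hx
      rw [mem_cen] at hx ⊢
      exact fun y hy => hY2 (hx y hy)
    refine (dg_case f hf hA hL hf1).2 H _ hHn h2n hlt hHN le_sup_left hS2
      (fun c hc => hle2 (hBC c hc)) p hp hp2 ?_
    rw [← Subgroup.relIndex_mul_relIndex _ _ _ hS hle2]
    exact Dvd.dvd.mul_right hcon _

theorem dp_form {G : Type} [Group G] [Finite G] (hG : DP G) (K : Type) [Group K] [Finite K]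
    (hK : (form G).mem K) : DP K :=
  form_induction (G := G) (fun H _ _ => DP H)
    (fun _ _ _ _ _ _ f hf h => dp_surj f hf h)
    (fun _ _ _ _ _ _ _ _ _ f g hf hg hA hB h => dp_sub f g hf hg hA hB h) hG K hK

end Tz

end MP799fdf
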