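import Pool.Agent.Lib.MP_799fdf_al.Tz.MzA
import Pool.Agent.Lib.MP_799fdf_al.Tz.PHomB

/-! # Commutators -/

set_option autoImplicit false

open scoped commutatorElement

namespace MP799fdf

namespace Tz

open Tw (Fx YY XX Fac lab)

namespace Eng

variable {K : Type} [Group K] [Finite K] {ι T : Type} {A C : T → Type} [∀ τ, Group (A τ)]
  [∀ τ, Group (C τ)] {W Q : ι → Type} [∀ i, Group (W i)] (D : Eng K ι T A C W Q) [Fintype ι] [DecidableEq ι] {Y : Type}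

/-- `r i w = ⁅σ i (g₁ ⟨t i, w⟩), σ i (g₂ ⟨t i, w⟩)⁆`. -/
theorem comm_mem (Z : Finset (XX K Y ι C)) {f₁ f₂ : EE K Y ι Q → K} (h₁ : f₁ ∈ D.DZ Z)
    (h₂ : f₂ ∈ D.DZ Z) (hR₁ : ∀ e, f₁ e ∈ ⨆ i, D.R i) (hR₂ : ∀ e, f₂ e ∈ ⨆ i, D.R i) :
    ⁅f₁, f₂⁆ ∈ D.M Z := by
  classical
  obtain ⟨⟨g₁, hg₁⟩, hz₁⟩ := h₁
  obtain ⟨⟨g₂, hg₂⟩, hz₂⟩ := h₂
  let g₁' : ∀ x : XX K Y ι C, A x.1 :=
    fun x => if x ∈ Z then 1 else g₁ x
  let g₂' : ∀ x : XX K Y ι C, A x.1 :=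
    fun x => if x ∈ Z then 1 else g₂ x
  have e₁ : ∀ e i, D.al i (f₁ e) = D.ta i (e.2.2 i) (g₁' (D.ptD e i)) := by
    intro e i
    show _ = D.ta i (e.2.2 i) (if D.ptD e i ∈ Z then 1 else g₁ (D.ptD e i))
    split_ifs with h
    · rw [map_one]
      exact hz₁ e i h
    · exact hg₁ e i
  have e₂ : ∀ e i, D.al i (f₂ e) = D.ta i (e.2.2 i) (g₂' (D.ptD e i)) := by
    intro e i
    show _ = D.ta i (e.2.2 i) (if D.ptD e i ∈ Z then 1 else g₂ (D.ptD e i))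
    split_ifs with h
    · rw [map_one]
      exact hz₂ e i h
    · exact hg₂ e i
  choose r₁ hr₁ using fun e => D.P_range (f₁ e) (hR₁ e)
  choose r₂ hr₂ using fun e => D.P_range (f₂ e) (hR₂ e)
  have a₁ : ∀ e i, D.al i (r₁ e i) = D.ta i (e.2.2 i) (g₁' (D.ptD e i)) := by
    intro e i
    rw [← D.al_P, hr₁, e₁]
  have a₂ : ∀ e i, D.al i (r₂ e i) = D.ta i (e.2.2 i) (g₂' (D.ptD e i)) := by
    intro e i
    rw [← D.al_P, hr₂, e₂]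
  have hσ : ∀ i (a : A (D.t i)), ∃ s : W i, (a = 1 → s = 1) ∧
      ((D.u (D.t i) a = 1) → D.al i (D.pr i s) = a) ∧
      (¬ (D.u (D.t i) a = 1) → s = 1) := by
    intro i a
    by_cases h1 : a = 1
    · refine ⟨1, fun _ => rfl, fun _ => ?_, fun _ => rfl⟩
      rw [h1, map_one]
      exact (D.al i).map_one
    · by_cases h : D.u (D.t i) a = 1
      · obtain ⟨r, hr, hra⟩ := (D.mapR i a).1 h
        obtain ⟨s, hs⟩ := D.prs i ⟨r, hr⟩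
        exact ⟨s, fun h2 => absurd h2 h1, fun _ => by rw [hs]; exact hra, fun h3 => absurd h h3⟩
      · exact ⟨1, fun _ => rfl, fun h3 => absurd h3 h, fun _ => rfl⟩
  choose σ s1 s2 s3 using hσ
  let b : ∀ τ, A τ → A τ := fun τ y => if D.u τ y = 1 then y else 1
  have hb : ∀ i a, D.al i (D.pr i (σ i a)) = b (D.t i) a := by
    intro i a
    show _ = if D.u (D.t i) a = 1 then a else 1
    split_ifs with h
    · exact s2 i a h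
    · rw [s3 i a h, map_one]
      exact (D.al i).map_one
  refine ⟨fun i w => ⁅σ i (g₁' ⟨D.t i, w⟩), σ i (g₂' ⟨D.t i, w⟩)⁆,
    ⟨fun x => ⁅b x.1 (g₁' x), b x.1 (g₂' x)⁆, fun i w => ?_⟩, fun i w h => ?_, fun e => ?_⟩
  · show D.al i ((D.R i).subtype (D.pr i ⁅σ i (g₁' ⟨D.t i, w⟩), σ i (g₂' ⟨D.t i, w⟩)⁆)) = _
    rw [map_commutatorElement, map_commutatorElement, map_commutatorElement]
    show ⁅D.al i (D.pr i (σ i (g₁' ⟨D.t i, w⟩))), D.al i (D.pr i (σ i (g₂' ⟨D.t i, w⟩)))⁆ = _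
    rw [hb, hb]
  · have h0 : g₁' ⟨D.t i, w⟩ = 1 := if_pos h
    show ⁅σ i (g₁' ⟨D.t i, w⟩), σ i (g₂' ⟨D.t i, w⟩)⁆ = 1
    rw [h0, s1 i 1 rfl, commutatorElement_one_left]
  · rw [show ⁅f₁, f₂⁆ e = ⁅f₁ e, f₂ e⁆ from rfl, ← hr₁ e, ← hr₂ e, ← map_commutatorElement]
    congr 1
    funext i
    rw [map_commutatorElement, map_commutatorElement]
    apply Subtype.ext
    show ⁅(r₁ e i : K), (r₂ e i : K)⁆ =
      ⁅((D.pr i (D.tw i (e.2.2 i) (σ i (g₁' (D.ptD e i)))) : D.R i) : K),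
        ((D.pr i (D.tw i (e.2.2 i) (σ i (g₂' (D.ptD e i)))) : D.R i) : K)⁆
    refine D.comm_eq i (r₁ e i).2 (r₂ e i).2 (D.pr i _).2 (D.pr i _).2 ?_ ?_
    · rw [a₁, D.comp, s2]
      rw [← D.uta i (e.2.2 i), ← a₁]
      exact (D.mapR i _).2 ⟨r₁ e i, (r₁ e i).2, rfl⟩
    · rw [a₂, D.comp, s2]
      rw [← D.uta i (e.2.2 i), ← a₂]
      exact (D.mapR i _).2 ⟨r₂ e i, (r₂ e i).2, rfl⟩

end Eng

end Tz

end MP799fdf
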