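import Pool.Agent.Lib.MP_799fdf_al.Tz.RedA
import Pool.Agent.Lib.MP_799fdf_al.Tw.RedB

/-! # Functions in all `M Z` -/

set_option autoImplicit false

open scoped commutatorElement

namespace MP799fdf

namespace Tz

open Tw (Fx YY XX Fac lab bd)

namespace Eng

variable {K : Type} [Group K] [Finite K] {ι T : Type} {A C : T → Type} [∀ τ, Group (A τ)]
  [∀ τ, Group (C τ)] {W Q : ι → Type} [∀ i, Group (W i)] (D : Eng K ι T A C W Q) [Fintype ι]
  [DecidableEq ι] [Finite T] [∀ τ, Finite (C τ)]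

/-- `combP` for `s ↦ F (s, none)`, where `zi (F e) = f e`, and for the `i` with `p ∤ |rho i E|`. -/
theorem inf_M {n m p a : ℕ} [NeZero n] (hp : p.Prime)
    (hz : ∀ i, ∀ z ∈ D.R i, D.al i z = 1 → z ^ (p ^ a) = 1) (E : Subgroup K) (hE : E.Normal)
    (hn : ∀ τ, Nat.card (C τ) * E.index ≤ n)
    (hpE : ∀ i, ¬ p ∣ Nat.card (E.map (D.rho i)) ∨
      ∀ x : W i, (∀ q, D.pr i (D.tw i q x) = D.pr i x) → D.al i (D.pr i x) = 1 → D.pr i x = 1)
    (hm : bd n (Nat.card T) ≤ m) (f : EE K (YY n n) ι Q → K)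
    (hf : ∀ Z : Finset (XX K (YY n n) ι C), Z.card ≤ m → f ∈ D.M Z) :
    f (Fx.one, none, D.q₀) = 1 := by
  classical
  have hEi : 1 ≤ E.index := Nat.one_le_iff_ne_zero.2 Subgroup.index_ne_zero_of_finite
  have hn' : ∀ τ, Nat.card (C τ) ≤ n := fun τ =>
    (Nat.le_mul_of_pos_right _ hEi).trans (hn τ)
  have hm2 : 2 ≤ m := le_trans (by unfold bd; omega) hm
  have hm1 : 1 ≤ m := by omega
  obtain ⟨h, -, hfe, hfix⟩ := D.exists_h hm1 f hf ∅ (by simp)
  set F : Fx K (YY n n) × Option ι → Additive D.ZZ := fun e =>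
    Additive.ofMul (∏ i, h i (fun x => D.rho i (e.1.1 x), lab e.2 i)) with hF
  have hrep : ∀ (h' : ∀ i, (K × YY n n → C (D.t i)) × Option ι → D.ZZ),
      (∀ s J, f (s, J, D.q₀) = D.zi (∏ i, h' i (fun x => D.rho i (s.1 x), lab J i))) →
      ∀ e, F e = ∑ i, Additive.ofMul (h' i (fun x => D.rho i (e.1.1 x), lab e.2 i)) := by
    intro h' h3 e
    have h4 : ∏ i, h i (fun x => D.rho i (e.1.1 x), lab e.2 i) =
        ∏ i, h' i (fun x => D.rho i (e.1.1 x), lab e.2 i) := by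
      apply D.zi_inj
      rw [← hfe, ← h3]
    rw [hF]
    dsimp only
    rw [h4, ofMul_prod]
  have hlab : ∀ (h' : ∀ i, (K × YY n n → C (D.t i)) × Option ι → D.ZZ),
      (∀ s J, f (s, J, D.q₀) = D.zi (∏ i, h' i (fun x => D.rho i (s.1 x), lab J i))) →
      (∀ (s : Fx K (YY n n)) (J : Option ι) (i : ι), ∃ x : W i,
        (∀ q, D.pr i (D.tw i q x) = D.pr i x) ∧
        D.al i (D.pr i x) = 1 ∧ D.zi (h' i (fun x => D.rho i (s.1 x), lab J i)) = D.pr i x) →
      ∀ s : Fx K (YY n n), F (s, none) =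
        ∑ i : {i : ι // ¬ p ∣ Nat.card (E.map (D.rho i))},
          Additive.ofMul (h' i.1 ((fun x => D.rho i.1 (s.1 x)), none)) := by
    intro h' h3 h6 s
    have h7 := Tw.no_label (E₀ := Fx K (YY n n)) (fun τ => K × YY n n → C τ) D.t
        (fun e i => fun x => D.rho i (e.1 x)) F m hm2 (fun _ => True)
        (fun Z' hZ' => by
          obtain ⟨h'', h4, h5, -⟩ := D.exists_h hm1 f hf Z' hZ'
          exact ⟨fun i x => Additive.ofMul (h'' i x),
            fun i x hx => congrArg Additive.ofMul (h4 i x hx), trivial, hrep h'' h5⟩)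
        (fun i x => Additive.ofMul (h' i x)) (hrep h' h3) s
    rw [h7, ← Fintype.sum_subtype_add_sum_subtype
      (fun i : ι => ¬ p ∣ Nat.card (E.map (D.rho i)))
      (fun i => Additive.ofMul (h' i ((fun x => D.rho i (s.1 x)), none))), add_eq_left]
    refine Finset.sum_eq_zero fun i _ => ?_
    obtain ⟨x, hx1, hx2, hx3⟩ := h6 s (some i.1) i.1
    have hl : lab (some i.1) i.1 = none := by simp [lab]
    rw [hl] at hx3
    have h8 : D.pr i.1 x = 1 := (hpE i.1).resolve_left i.2 x hx1 hx2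
    have h9 : h' i.1 ((fun x => D.rho i.1 (s.1 x)), none) = 1 := by
      apply D.zi_inj
      rw [hx3, h8, map_one]
      rfl
    rw [h9]
    rfl
  have key := Tw.combP (ι := {i : ι // ¬ p ∣ Nat.card (E.map (D.rho i))})
    (G := Additive D.ZZ) (n := n) p a hp ?_ (fun i => C (D.t i.1)) (fun i => D.rho i.1) E hE
    (fun i => hn (D.t i.1)) (fun i => i.2) (fun s => F (s, none)) ?_ ?_
  · have h1 : ∏ i, h i (fun x => D.rho i ((Fx.one : Fx K (YY n n)).1 x), lab none i) = 1 :=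
      Additive.ofMul.injective key
    rw [hfe, h1, map_one]
  · intro x
    apply Additive.toMul.injective
    rw [toMul_nsmul, toMul_zero]
    exact D.zz_exp hz _
  · exact ⟨fun i w => Additive.ofMul (h i.1 (w, none)), hlab h hfe hfix⟩
  · intro L hL hidx
    obtain ⟨Z, hZc, hZ⟩ := Tw.exists_Z (K := K) (Y := YY n n) (ι := ι) C
      (Nat.one_le_iff_ne_zero.2 (NeZero.ne n)) hn' L hidx
    obtain ⟨h', h1, h3, h6⟩ := D.exists_h hm1 f hf Z
      (hZc.trans (le_trans (by unfold bd; omega) hm))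
    refine ⟨fun i w => Additive.ofMul (h' i.1 (w, none)), fun i w hw => ?_, hlab h' h3 h6⟩
    exact congrArg Additive.ofMul (h1 i.1 (w, none) (hZ (D.t i.1) w hw))

end Eng

end Tz

end MP799fdf
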