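import Pool.Agent.Lib.MP_799fdf_al.Tz.Ext
import Pool.Agent.Lib.MP_799fdf_al.Tz.MzD
import Pool.Agent.Lib.MP_799fdf_al.Tz.RedB
import Pool.Agent.Lib.MP_799fdf_al.Tw.EngFin
import Pool.Agent.Lib.MP_799fdf_al.Inn.IrrA

/-! # The engine -/

set_option autoImplicit false

open scoped commutatorElement

namespace MP799fdf

namespace Tz

open Tw (Fx YY XX Fac lab bd mem_of_family)

namespace Eng

variable {K : Type} [Group K] [Finite K] {ι T : Type} {A C : T → Type} [∀ τ, Group (A τ)]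
  [∀ τ, Group (C τ)] {W Q : ι → Type} [∀ i, Group (W i)] (D : Eng K ι T A C W Q) [Fintype ι]
  [DecidableEq ι] [Finite T] [∀ τ, Finite (C τ)] [∀ i, Finite (Q i)]

instance {Y : Type} [Finite Y] : Finite (Fx K Y) := inferInstanceAs (Finite (Subtype _))

/-- `Formation.of_family` with the evaluations (`ext`). -/
theorem form_Pi {Y : Type} [Finite Y] [Nonempty Y] : (form K).mem (D.Pi Y) := by
  have hne : Nonempty (EE K Y ι Q) := ⟨(Fx.one, none, D.q₀)⟩
  refine Formation.of_family (form K) (J := EE K Y ι Q) (fun _ => K)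
    (fun e => (Pi.evalMonoidHom (fun _ : EE K Y ι Q => K) e).comp
      (D.Pi Y).subtype) ?_ (fun _ => mem_form K) ?_
  · intro e k
    obtain ⟨f, hf, hk⟩ := D.ext e k
    exact ⟨⟨f, hf⟩, hk⟩
  · intro x hx
    apply Subtype.ext
    funext e
    exact hx e

include D in
/-- THE ENGINE. -/
theorem genM_eng [∀ τ, Finite (A τ)] {a n p b : ℕ} [NeZero n] (ha : ∀ τ, Nat.card (A τ) ≤ a)
    (ha1 : 1 ≤ a) (hp : p.Prime) (hz : ∀ i, ∀ z ∈ D.R i, D.al i z = 1 → z ^ (p ^ b) = 1)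
    (E : Subgroup K) (hE : E.Normal) (hn : ∀ τ, Nat.card (C τ) * E.index ≤ n)
    (hpE : ∀ i, ¬ p ∣ Nat.card (E.map (D.rho i)) ∨
      ∀ x : W i, (∀ q, D.pr i (D.tw i q x) = D.pr i x) → D.al i (D.pr i x) = 1 →
        D.pr i x = 1) :
    (Inn.genM (a ^ bd n (Nat.card T)) K).mem K := by
  have hfin : Finite (XX K (YY n n) ι C) := inferInstance
  have hfin2 : Finite (Finset (XX K (YY n n) ι C)) := inferInstance
  have hne : Nonempty {Z : Finset (XX K (YY n n) ι C) // Z.card ≤ bd n (Nat.card T)} :=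
    ⟨⟨∅, by simp⟩⟩
  have hnorm : ∀ Z : {Z : Finset (XX K (YY n n) ι C) // Z.card ≤ bd n (Nat.card T)},
      ((D.M Z.1).subgroupOf (D.Pi (YY n n))).Normal := fun Z => D.M_normal Z.1
  refine mem_of_family (Inn.genM (a ^ bd n (Nat.card T)) K)
    (J := {Z : Finset (XX K (YY n n) ι C) // Z.card ≤ bd n (Nat.card T)})
    (fun Z => (D.M Z.1).subgroupOf (D.Pi (YY n n))) (fun Z => ?_)
    ((Pi.evalMonoidHom (fun _ : EE K (YY n n) ι Q => K) (Fx.one, none, D.q₀)).comp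
      (D.Pi (YY n n)).subtype) ?_ ?_
  · intro F hF
    exact hF _ ⟨(form K).quot (D.Pi (YY n n)) _ D.form_Pi,
      Inn.rb_mono (Nat.pow_le_pow_right ha1 Z.2) (D.rb_quot ha Z.1)⟩
  · intro k
    obtain ⟨f, hf, hk⟩ := D.ext ((Fx.one, none, D.q₀) : EE K (YY n n) ι Q) k
    exact ⟨⟨f, hf⟩, hk⟩
  · intro x hx
    exact D.inf_M hp hz E hE hn hpE le_rfl x.1 fun Z hZm => Subgroup.mem_subgroupOf.1 (hx ⟨Z, hZm⟩)

end Eng

end Tz

end MP799fdf
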