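import Pool.Agent.Lib.MP_799fdf_al.Tz.BuildU
import Pool.Agent.Lib.MP_799fdf_al.Tz.Fin

/-! # The theorem with covers -/

set_option autoImplicit false

open scoped commutatorElement

namespace MP799fdf

namespace Tz

open Inn
open Cop (TT TA TY ty_form)
open Tw (TB TC bd exp_N card_bot exists_loc_top)

variable {G : Type} [Group G] {U : TT G → Type} [∀ τ, Group (U τ)]

/-- the condition for the covers -/
def CU (S : USys G U) : Prop :=
  ∀ (τ : TT G) (H Y : Subgroup (U τ)), Sec S τ H Y → ∀ p : ℕ, p.Prime → p ∣ Y.relIndex H →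
    ∀ B : Subgroup (TA G τ), (∀ α ∈ B, ∀ b : U τ ≃* U τ,
      (∀ x, S.ep τ (b x) = α * S.ep τ x * α⁻¹) → ∀ z ∈ H, b z * z⁻¹ ∈ Y) →
      ¬ p ∣ Nat.card (B.map (QuotientGroup.mk' (TB G τ)))

/-- The case with a monolith. -/
theorem genM_monoU [Finite G] [∀ τ, Finite (U τ)] (S : USys G U) (hCU : CU S) (K : Type)
    [Group K] [Finite K] (hK : (form G).mem K) (hCZ : CZ K) (hTR : TYR S K) {V : Subgroup K}
    (hV : IsMono V) :
    (genM (bnd G) K).mem K := by
  classical
  have hTY := ty_form G K hK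
  have hCB := chief_form K hK
  have hG1 : 1 ≤ Nat.card G := Nat.card_pos
  by_cases hne : ∃ L N : Subgroup K, Loc L N
  swap
  · push Not at hne
    exact tz_small (exists_loc_top hne) (hG1.trans (tz_bnd G))
  by_cases hbot : ∃ L : Subgroup K, Loc L ⊥
  · obtain ⟨L, hL⟩ := hbot
    refine tz_small (m := Nat.card K) ⟨⊥, inferInstance, inferInstance, ?_⟩
      ((card_bot G hTY hV hL).trans (tz_bnd G))
    rw [Subgroup.index_bot]
  have hVn := hV.nV
  have hcard : 1 < Nat.card V := by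
    rw [Subgroup.one_lt_card_iff_ne_bot]
    exact hV.ne
  obtain ⟨p, hp, hpV⟩ := Nat.exists_prime_and_dvd (n := Nat.card V) (by omega)
  obtain ⟨b, hb⟩ := exp_N hV hp hpV
  choose N hN using fun i : LI K => i.2
  choose t a π hs hk hr ha using fun i : LI K => hTR i.1 (N i) (hN i)
  obtain ⟨n, hn⟩ := Cop.solv_quot (⨆ i : LI K, i.1)
    (by
      have : ∀ i : LI K, (i.1).Normal := fun i => (hN i).nR
      infer_instance)
    (fun L M h => le_iSup (fun i : LI K => i.1) ⟨L, M, h⟩)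
  obtain ⟨D, hD⟩ : ∃ D, D = mkEng S t a π N hN hCZ hs hk hr ha n hn := ⟨_, rfl⟩
  have : Fintype (LI K) := Fintype.ofFinite _
  have hGG : NeZero (Nat.card G * Nat.card G) := ⟨(Nat.mul_pos hG1 hG1).ne'⟩
  have hbn : (⊥ : Subgroup K).Normal := inferInstance
  have hEn : (cen V ⊥ hbn).Normal := cen_normal V ⊥ hVn hbn
  have hEi : (cen V ⊥ hbn).index ≤ Nat.card G := cen_index hCB (mono_chief hV)
  have hz : ∀ i, ∀ z ∈ D.R i, D.al i z = 1 → z ^ (p ^ b) = 1 := by
    subst hD
    intro i z hz hz1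
    have h4 : z ∈ N i := loc_inf_cen (hN i) ⟨hz, (hk i z).1 hz1⟩
    refine hb (N i) (hN i).nN (fun x hx y hy => ?_) z h4
    have h5 : ⁅x, y⁆ ∈ ⁅N i, i.1⁆ := Subgroup.commutator_mem_commutator hx ((hN i).lt.le hy)
    rw [hCZ i.1 (N i) (hN i), Subgroup.mem_bot] at h5
    exact commutatorElement_eq_one_iff_commute.1 h5
  have hpE : ∀ i, ¬ p ∣ Nat.card ((cen V ⊥ hbn).map (D.rho i)) ∨
      ∀ x : U (t i), (∀ q, D.pr i (D.tw i q x) = D.pr i x) → D.al i (D.pr i x) = 1 →
        D.pr i x = 1 := by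
    subst hD
    intro i
    by_cases hx : ∃ x : U (t i), (∀ q : Tht S (t i), π i (q.1.2 x) = π i x) ∧
        a i (π i x) = 1 ∧ π i x ≠ 1
    · left
      obtain ⟨x, hx1, hx2, hx3⟩ := hx
      obtain ⟨H, Y, hSec, hHY, hact⟩ := fix_sec S hV (hN i) (hCZ i.1 (N i) (hN i)) (hs i) (hk i)
        (hr i) (ha i) hbn x hx1 hx2 hx3
      have h6 := hCU (t i) H Y hSec p hp (by rw [hHY]; exact hpV) ((cen V ⊥ hbn).map (a i))
        (by
          intro α hα b hb' z hz
          obtain ⟨k, hk', rfl⟩ := Subgroup.mem_map.1 hα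
          exact hact k hk' b hb' z hz)
      rw [Subgroup.map_map] at h6
      exact h6
    · right
      intro x hx1 hx2
      by_contra hx3
      refine hx ⟨x, fun q => congrArg Subtype.val (hx1 q), hx2, fun e => hx3 (Subtype.ext e)⟩
  exact D.genM_eng (a := Nat.card G) (n := Nat.card G * Nat.card G) (tz_card G) hG1 hp
    (b := b) hz (cen V ⊥ hbn) hEn
    (fun τ => Nat.mul_le_mul ((Nat.card_le_card_of_surjective _
      (QuotientGroup.mk'_surjective (TB G τ))).trans (tz_card G τ)) hEi) hpE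

/-- THE THEOREM. -/
theorem mainU [Finite G] [∀ τ, Finite (U τ)] (S : USys G U) (hCZ : CZ G) (hCU : CU S) :
    {F : Formation | F.IsSub (form G)}.Finite := by
  obtain ⟨B, hB⟩ := genB_of_RB G (bnd G)
  refine finite_of_genB B fun K _ _ hK => ?_
  refine genM_of_mono G (bnd G) ((Nat.card_pos (α := G)).trans_le (tz_bnd G))
    (fun K _ _ hK V hV => ?_) K hK (genB B K) fun H _ _ hH => ?_
  · obtain ⟨h1, h2⟩ := tyr_form S hCZ K hK
    exact genM_monoU S hCU K hK h1 h2 hV
  · exact genB_le hH.1 H (hB H (form_le (form G) hK H hH.1) hH.2)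

end Tz

end MP799fdf
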