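import Pool.Agent.Lib.MP_799fdf_al.Tz.USys

/-! # Gluing homomorphisms of a perfect group -/

set_option autoImplicit false

open scoped commutatorElement

namespace MP799fdf

namespace Tz

private theorem glue_comm_left {B : Type} [Group B] (a z c : B) (h : Commute z c) :
    ⁅a * z, c⁆ = ⁅a, c⁆ := by
  have h1 : z * c * z⁻¹ = c := by
    rw [h.eq, mul_inv_cancel_right]
  calc ⁅a * z, c⁆ = a * (z * c * z⁻¹) * a⁻¹ * c⁻¹ := by
        simp only [commutatorElement_def]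
        group
    _ = ⁅a, c⁆ := by rw [h1, commutatorElement_def]

private theorem glue_comm_right {B : Type} [Group B] (a b z : B) (h : Commute z a) :
    ⁅a, b * z⁆ = ⁅a, b⁆ := by
  have h1 : z * a⁻¹ * z⁻¹ = a⁻¹ := by
    rw [h.inv_right.eq, mul_inv_cancel_right]
  calc ⁅a, b * z⁆ = a * b * (z * a⁻¹ * z⁻¹) * b⁻¹ := by
        simp only [commutatorElement_def]
        group
    _ = ⁅a, b⁆ := by rw [h1, commutatorElement_def]

/-- PROOF. Let `Dd = {(r, x) ∈ R × K | x ∈ L, f x = p₁ r}` (a subgroup), which maps onto `R` (`h₁`). For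
`(r, x) ∈ Dd` let `z (r, x) = (p₂ r)⁻¹ * g x`; it commutes with `g y` for all `y ∈ L` (`h₂`), in particular with
`g x'`, with `p₂ r'` (`h₃`), and so with `z (r', x')`. Hence `z` is multiplicative on `Dd` and its values commute, so
`z = 1` on `⁅Dd, Dd⁆` (e.g. `z` of a commutator is `1` by direct computation; `Subgroup.commutator_le` with the
subgroup of all `(r, x) ∈ Dd` with `g x = p₂ r`). The image of `⁅Dd, Dd⁆` in `R` is `⁅⊤, ⊤⁆ = ⊤` (`Subgroup.map_commutator`).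
So for every `r` there is `x ∈ L` with `f x = p₁ r`, `g x = p₂ r`; it is unique (`hinj`), so `π r := x` is a
homomorphism (`MonoidHom.mk'`). -/
theorem exists_glue {R K A B : Type} [Group R] [Group K] [Group A] [Group B]
    (hR : ⁅(⊤ : Subgroup R), (⊤ : Subgroup R)⁆ = ⊤) (L : Subgroup K) (f : K →* A) (g : K →* B)
    (p₁ : R →* A) (p₂ : R →* B) (hinj : ∀ x ∈ L, f x = 1 → g x = 1 → x = 1)
    (h₁ : ∀ r, ∃ x ∈ L, f x = p₁ r)
    (h₂ : ∀ r, ∀ x ∈ L, f x = p₁ r → ∀ y ∈ L, Commute ((p₂ r)⁻¹ * g x) (g y))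
    (h₃ : ∀ r, p₂ r ∈ L.map g) :
    ∃ π : R →* K, (∀ r, π r ∈ L) ∧ (∀ r, f (π r) = p₁ r) ∧ ∀ r, g (π r) = p₂ r := by
  let Dd : Subgroup (R × K) :=
    { carrier := {d | d.2 ∈ L ∧ f d.2 = p₁ d.1}
      one_mem' := ⟨L.one_mem, by rw [Prod.snd_one, Prod.fst_one, map_one, map_one]⟩
      mul_mem' := by
        rintro ⟨r, x⟩ ⟨r', x'⟩ ⟨a, b⟩ ⟨a', b'⟩
        refine ⟨L.mul_mem a a', ?_⟩
        show f (x * x') = p₁ (r * r')
        rw [map_mul, map_mul]
        exact congrArg₂ (· * ·) b b'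
      inv_mem' := by
        rintro ⟨r, x⟩ ⟨a, b⟩
        refine ⟨L.inv_mem a, ?_⟩
        show f x⁻¹ = p₁ r⁻¹
        rw [map_inv, map_inv]
        exact congrArg _ b }
  let Good : Subgroup (R × K) :=
    { carrier := {d | d.2 ∈ L ∧ f d.2 = p₁ d.1 ∧ g d.2 = p₂ d.1}
      one_mem' := ⟨L.one_mem, by rw [Prod.snd_one, Prod.fst_one, map_one, map_one],
        by rw [Prod.snd_one, Prod.fst_one, map_one, map_one]⟩
      mul_mem' := by
        rintro ⟨r, x⟩ ⟨r', x'⟩ ⟨a, b, c⟩ ⟨a', b', c'⟩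
        refine ⟨L.mul_mem a a', ?_, ?_⟩
        · show f (x * x') = p₁ (r * r')
          rw [map_mul, map_mul]
          exact congrArg₂ (· * ·) b b'
        · show g (x * x') = p₂ (r * r')
          rw [map_mul, map_mul]
          exact congrArg₂ (· * ·) c c'
      inv_mem' := by
        rintro ⟨r, x⟩ ⟨a, b, c⟩
        refine ⟨L.inv_mem a, ?_, ?_⟩
        · show f x⁻¹ = p₁ r⁻¹
          rw [map_inv, map_inv]
          exact congrArg _ b
        · show g x⁻¹ = p₂ r⁻¹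
          rw [map_inv, map_inv]
          exact congrArg _ c }
  have hle : ⁅Dd, Dd⁆ ≤ Good := by
    rw [Subgroup.commutator_le]
    rintro ⟨r, x⟩ ⟨hx, hfx⟩ ⟨r', x'⟩ ⟨hx', hfx'⟩
    have hx0 : x ∈ L := hx
    have hx0' : x' ∈ L := hx'
    have hf0 : f x = p₁ r := hfx
    have hf0' : f x' = p₁ r' := hfx'
    refine ⟨?_, ?_, ?_⟩
    · show ⁅x, x'⁆ ∈ L
      rw [commutatorElement_def]
      exact L.mul_mem (L.mul_mem (L.mul_mem hx0 hx0') (L.inv_mem hx0)) (L.inv_mem hx0')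
    · show f ⁅x, x'⁆ = p₁ ⁅r, r'⁆
      rw [map_commutatorElement, map_commutatorElement, hf0, hf0']
    · show g ⁅x, x'⁆ = p₂ ⁅r, r'⁆
      rw [map_commutatorElement, map_commutatorElement]
      have c1 := h₂ r x hx0 hf0 x' hx0'
      obtain ⟨y, hy, hyr⟩ := h₃ r
      have c2 := h₂ r' x' hx0' hf0' y hy
      rw [hyr] at c2
      have e1 : g x = p₂ r * ((p₂ r)⁻¹ * g x) := by rw [mul_inv_cancel_left]
      have e2 : g x' = p₂ r' * ((p₂ r')⁻¹ * g x') := by rw [mul_inv_cancel_left]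
      calc ⁅g x, g x'⁆ = ⁅p₂ r * ((p₂ r)⁻¹ * g x), g x'⁆ := by rw [← e1]
        _ = ⁅p₂ r, g x'⁆ := glue_comm_left _ _ _ c1
        _ = ⁅p₂ r, p₂ r' * ((p₂ r')⁻¹ * g x')⁆ := by rw [← e2]
        _ = ⁅p₂ r, p₂ r'⁆ := glue_comm_right _ _ _ c2
  have hmap : Dd.map (MonoidHom.fst R K) = ⊤ := by
    rw [eq_top_iff]
    intro r _
    obtain ⟨x, hx, hfx⟩ := h₁ r
    exact ⟨(r, x), ⟨hx, hfx⟩, rfl⟩
  have H : ∀ r, ∃ x, x ∈ L ∧ f x = p₁ r ∧ g x = p₂ r := by
    intro r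
    have h4 : (⁅Dd, Dd⁆).map (MonoidHom.fst R K) = ⊤ := by
      rw [Subgroup.map_commutator, hmap, hR]
    have h5 : r ∈ (⁅Dd, Dd⁆).map (MonoidHom.fst R K) := by
      rw [h4]
      exact Subgroup.mem_top r
    obtain ⟨⟨r', x⟩, hd, hdr⟩ := h5
    have hr : r' = r := hdr
    subst hr
    obtain ⟨a, b, c⟩ := hle hd
    exact ⟨x, a, b, c⟩
  choose π hπ1 hπ2 hπ3 using H
  have huniq : ∀ x ∈ L, ∀ y ∈ L, f x = f y → g x = g y → x = y := by
    intro x hx y hy h6 h7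
    have h8 := hinj (x * y⁻¹) (L.mul_mem hx (L.inv_mem hy))
      (by rw [map_mul, map_inv, h6, mul_inv_cancel]) (by rw [map_mul, map_inv, h7, mul_inv_cancel])
    exact mul_inv_eq_one.1 h8
  refine ⟨MonoidHom.mk' π fun r r' => ?_, hπ1, hπ2, hπ3⟩
  apply huniq _ (hπ1 _) _ (L.mul_mem (hπ1 _) (hπ1 _))
  · rw [map_mul, hπ2, hπ2, hπ2, map_mul]
  · rw [map_mul, hπ3, hπ3, hπ3, map_mul]

end Tz

end MP799fdf
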