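import Pool.Agent.Lib.MP_799fdf_al.Tz.FixSec

/-! # The section that belongs to the monolith, second part -/

set_option autoImplicit false

open scoped commutatorElement

namespace MP799fdf

namespace Tz

open Inn
open Cop (TT TA)
open Tw (TB TC)

variable {G : Type} [Group G] {U : TT G → Type} [∀ τ, Group (U τ)] (S : USys G U)
  {K : Type} [Group K] [Finite K] {L N V : Subgroup K} {τ : TT G} {a : K →* TA G τ}
  {π : U τ →* K}

/-- PROOF. `F = Fx0 S π`, `H = F ⊓ V.comap π`, `Y = F ⊓ π.ker`. `F.map π` is normal in `K`: for `k ∈ K` take `b` from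
`exists_conj` for `a k`; `k * π z * k⁻¹ = π (b z)` (`eqv`), `fx0_conj`. It is not `⊥` (`π z ≠ 1`), so `V ≤ F.map π`
(`hV.le`) and `H.map π = V`. `Y.relIndex H = π.ker.relIndex H = Nat.card (H.map π) = Nat.card V`
(`Subgroup.relIndex_ker`), so `Y ≠ H` as `V ≠ ⊥`.
Invariance under `b` over `α`: `fx0_conj`, and `π (b z) = k * π z * k⁻¹` for `a k = α`, `V` normal.
Twists: for `z ∈ H` and `q`, `w = q.1.2 z * z⁻¹`: `S.ep τ w = q.1.1 1 * 1 = 1`, `π w = π z * (π z)⁻¹ = 1`, and for another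
twist `q'` `π (q'.1.2 (q.1.2 z)) = π z` since the composition of twists is a twist; so `w ∈ F ⊓ π.ker`.
Last part: `w = b z * z⁻¹ ∈ F` (`fx0_conj`), `π w = k * π z * k⁻¹ * (π z)⁻¹ = 1` as `π z ∈ V` and `⁅k, π z⁆ ∈ ⊥`. -/
theorem fix_sec (hV : IsMono V) (h : Loc L N) (hc : ⁅N, L⁆ = ⊥)
    (hs : Function.Surjective a) (hk : ∀ x, a x = 1 ↔ x ∈ cen L N h.nN)
    (hr : π.range = L) (ha : ∀ x, a (π x) = S.ep τ x) (hbn : (⊥ : Subgroup K).Normal) (z : U τ)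
    (hz : ∀ q : Tht S τ, π (q.1.2 z) = π z) (hz1 : a (π z) = 1) (hz2 : π z ≠ 1) :
    ∃ H Y : Subgroup (U τ), Sec S τ H Y ∧ Y.relIndex H = Nat.card V ∧
      ∀ k ∈ cen V ⊥ hbn, ∀ b : U τ ≃* U τ, (∀ x, S.ep τ (b x) = a k * S.ep τ x * (a k)⁻¹) →
        ∀ z ∈ H, b z * z⁻¹ ∈ Y := by
  have hVn := hV.nV
  have hconj : ∀ (k : K) (b : U τ ≃* U τ), (∀ x, S.ep τ (b x) = a k * S.ep τ x * (a k)⁻¹) →
      ∀ y, π (b y) = k * π y * k⁻¹ := fun k b hb y => eqv S h hc hk hr ha k b.toMonoidHom hb y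
  have hFb : ∀ (α : TA G τ) (b : U τ ≃* U τ), (∀ x, S.ep τ (b x) = α * S.ep τ x * α⁻¹) →
      ∀ y ∈ Fx0 S π, b y ∈ Fx0 S π := fun α b hb y hy =>
    fx0_conj S h hc hs hk hr ha α b hb y hy
  have hFn : ((Fx0 S π).map π).Normal := by
    refine ⟨fun w hw k => ?_⟩
    obtain ⟨y, hy, rfl⟩ := Subgroup.mem_map.1 hw
    obtain ⟨b, hb⟩ := exists_conj S τ (a k)
    rw [← hconj k b hb y]
    exact Subgroup.mem_map_of_mem π (hFb _ b hb y hy)
  have hzF : z ∈ Fx0 S π := ⟨by rw [← ha]; exact hz1, hz⟩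
  have hFne : (Fx0 S π).map π ≠ ⊥ := by
    intro e
    have h1 : π z ∈ (Fx0 S π).map π := Subgroup.mem_map_of_mem π hzF
    rw [e, Subgroup.mem_bot] at h1
    exact hz2 h1
  have hVF : V ≤ (Fx0 S π).map π := hV.le _ hFn hFne
  have hmap : (Fx0 S π ⊓ V.comap π).map π = V := by
    apply le_antisymm
    · rw [Subgroup.map_le_iff_le_comap]
      exact inf_le_right
    · intro v hv
      obtain ⟨y, hy, rfl⟩ := Subgroup.mem_map.1 (hVF hv)
      exact Subgroup.mem_map_of_mem π (Subgroup.mem_inf.2 ⟨hy, Subgroup.mem_comap.2 hv⟩)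
  have hYH : Fx0 S π ⊓ π.ker ≤ Fx0 S π ⊓ V.comap π := by
    refine inf_le_inf_left _ fun y hy => ?_
    rw [Subgroup.mem_comap, MonoidHom.mem_ker.1 hy]
    exact V.one_mem
  refine ⟨Fx0 S π ⊓ V.comap π, Fx0 S π ⊓ π.ker, ⟨?_, ?_, ?_, ?_⟩, ?_, ?_⟩
  · intro y hy
    exact (Subgroup.mem_inf.1 hy).1.1
  · refine lt_of_le_not_ge hYH fun h1 => hV.ne ?_
    rw [← hmap, Subgroup.map_eq_bot_iff]
    exact h1.trans inf_le_right
  · intro α b hb
    obtain ⟨k, rfl⟩ := hs α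
    constructor
    · intro y hy
      obtain ⟨hy1, hy2⟩ := Subgroup.mem_inf.1 hy
      refine Subgroup.mem_inf.2 ⟨hFb _ b hb y hy1, ?_⟩
      rw [Subgroup.mem_comap, hconj k b hb y]
      exact hVn.conj_mem _ (Subgroup.mem_comap.1 hy2) k
    · intro y hy
      obtain ⟨hy1, hy2⟩ := Subgroup.mem_inf.1 hy
      refine Subgroup.mem_inf.2 ⟨hFb _ b hb y hy1, ?_⟩
      rw [MonoidHom.mem_ker, hconj k b hb y, MonoidHom.mem_ker.1 hy2, mul_one, mul_inv_cancel]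
  · intro q y hy
    obtain ⟨hy1, hy2⟩ := Subgroup.mem_inf.1 hy
    have e1 : π (q.1.2 y * y⁻¹) = 1 := by
      rw [map_mul, map_inv, hy1.2 q, mul_inv_cancel]
    refine Subgroup.mem_inf.2 ⟨⟨?_, fun q' => ?_⟩, MonoidHom.mem_ker.2 e1⟩
    · rw [map_mul, map_inv, q.2.1 y, hy1.1, map_one, inv_one, mul_one]
    · let q2 : Tht S τ := ⟨(q.1.1.trans q'.1.1, q.1.2.trans q'.1.2), fun x => by
        show S.ep τ (q'.1.2 (q.1.2 x)) = q'.1.1 (q.1.1 (S.ep τ x))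
        rw [q'.2.1, q.2.1], fun x => by
        show QuotientGroup.mk' (TB G τ) (q'.1.1 (q.1.1 x)) = QuotientGroup.mk' (TB G τ) x
        rw [q'.2.2, q.2.2]⟩
      have e2 : π (q'.1.2 (q.1.2 y)) = π y := hy1.2 q2
      rw [e1, map_mul, map_mul, map_inv, map_inv, e2, hy1.2 q', mul_inv_cancel]
  · have e : (Fx0 S π ⊓ π.ker) ⊓ (Fx0 S π ⊓ V.comap π) = π.ker ⊓ (Fx0 S π ⊓ V.comap π) := by
      apply le_antisymm
      · exact inf_le_inf_right _ inf_le_right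
      · exact le_inf (le_inf (inf_le_right.trans inf_le_left) inf_le_left) inf_le_right
    rw [← Subgroup.inf_relIndex_right, e, Subgroup.inf_relIndex_right, Subgroup.relIndex_ker, hmap]
  · intro k hkc b hb y hy
    obtain ⟨hy1, hy2⟩ := Subgroup.mem_inf.1 hy
    refine Subgroup.mem_inf.2 ⟨(Fx0 S π).mul_mem (hFb _ b hb y hy1) ((Fx0 S π).inv_mem hy1), ?_⟩
    have e3 : ⁅k, π y⁆ = 1 := Subgroup.mem_bot.1 (hkc (π y) (Subgroup.mem_comap.1 hy2))
    rw [MonoidHom.mem_ker, map_mul, map_inv, hconj k b hb y, ← commutatorElement_def]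
    exact e3

end Tz

end MP799fdf
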