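import Pool.Agent.Lib.MP_799fdf_al.Tz.Tyr
import Pool.Agent.Lib.MP_799fdf_al.Tz.Glue

/-! # Local subgroups of subdirect products are quotients of the covers -/

set_option autoImplicit false

open scoped commutatorElement

namespace MP799fdf

namespace Tz

open Inn
open Cop (TT TA)
open Tw (TB TC)

private theorem tyrB_comm_left {B : Type} [Group B] (a z c : B) (h : Commute z c) :
    ⁅a * z, c⁆ = ⁅a, c⁆ := by
  have h1 : z * c * z⁻¹ = c := by
    rw [h.eq, mul_inv_cancel_right]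
  calc ⁅a * z, c⁆ = a * (z * c * z⁻¹) * a⁻¹ * c⁻¹ := by
        simp only [commutatorElement_def]
        group
    _ = ⁅a, c⁆ := by rw [h1, commutatorElement_def]

private theorem tyrB_comm_right {B : Type} [Group B] (a b z : B) (h : Commute z a) :
    ⁅a, b * z⁆ = ⁅a, b⁆ := by
  have h1 : z * a⁻¹ * z⁻¹ = a⁻¹ := by
    rw [h.inv_right.eq, mul_inv_cancel_right]
  calc ⁅a, b * z⁆ = a * b * (z * a⁻¹ * z⁻¹) * b⁻¹ := by
        simp only [commutatorElement_def]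
        group
    _ = ⁅a, b⁆ := by rw [h1, commutatorElement_def]

/-- Two surjections with the same kernel. -/
private theorem tyrB_equiv {K P Q : Type} [Group K] [Group P] [Group Q] (a : K →* P) (b : K →* Q)
    (ha : Function.Surjective a) (hb : Function.Surjective b) (hk : ∀ x, a x = 1 ↔ b x = 1) :
    ∃ β : P ≃* Q, ∀ x, β (a x) = b x := by
  have hle : a.ker ≤ b.ker := fun x hx => by
    rw [MonoidHom.mem_ker] at hx ⊢
    exact (hk x).1 hx
  have hβ : ∀ x, a.liftOfSurjective ha ⟨b, hle⟩ (a x) = b x := fun x =>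
    MonoidHom.liftOfRightInverse_comp_apply a _ (Function.rightInverse_surjInv ha) ⟨b, hle⟩ x
  have hbij : Function.Bijective (a.liftOfSurjective ha ⟨b, hle⟩) := by
    constructor
    · rw [injective_iff_map_eq_one]
      intro p hp
      obtain ⟨x, rfl⟩ := ha p
      rw [hβ] at hp
      exact (hk x).2 hp
    · intro q
      obtain ⟨x, rfl⟩ := hb q
      exact ⟨a x, hβ x⟩
  exact ⟨MulEquiv.ofBijective _ hbij, hβ⟩

/-- One factor, on which `L` is embedded. -/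
private theorem tyrB_one {G : Type} [Group G] {U : TT G → Type} [∀ τ, Group (U τ)] (S : USys G U)
    {K B : Type} [Group K] [Finite K] [Group B] [Finite B] (g : K →* B)
    (hg : Function.Surjective g) (hB : TYR S B) {L N : Subgroup K} (hLN : Loc L N)
    (hinj : ∀ x ∈ L, g x = 1 → x = 1) :
    ∃ (τ : TT G) (a : K →* TA G τ) (π : U τ →* K),
      Function.Surjective a ∧ (∀ x, a x = 1 ↔ x ∈ cen L N hLN.nN) ∧ π.range = L ∧
      ∀ x, a (π x) = S.ep τ x := by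
  have hLg : ¬ L ≤ g.ker := fun hle => hLN.ne_bot (by
    rw [eq_bot_iff]
    intro x hx
    exact Subgroup.mem_bot.2 (hinj x hx (hle hx)))
  obtain ⟨τ, a, π', ha, hk, hr, he, -⟩ := tyr_case S g hg hB hLN hLg
  have hr1 : ∀ r, π' r ∈ L.map g := fun r => by
    rw [← hr]
    exact ⟨r, rfl⟩
  obtain ⟨π, hπL, hπg, -⟩ := exists_glue (S.perf τ) L g g π' π'
    (fun x hx h1 _ => hinj x hx h1)
    (fun r => by
      obtain ⟨x, hx, hgx⟩ := hr1 r
      exact ⟨x, hx, hgx⟩)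
    (fun r x _ hgx y _ => by
      rw [hgx, inv_mul_cancel]
      exact Commute.one_left _) hr1
  refine ⟨τ, a, π, ha, hk, le_antisymm ?_ ?_, fun r => he (π r) r (hπg r)⟩
  · rintro _ ⟨r, rfl⟩
    exact hπL r
  · intro x hx
    have h1 : g x ∈ π'.range := by
      rw [hr]
      exact Subgroup.mem_map_of_mem g hx
    obtain ⟨r, h2⟩ := h1
    refine ⟨r, ?_⟩
    have h3 := hinj (π r * x⁻¹) (L.mul_mem (hπL r) (L.inv_mem hx))
      (by rw [map_mul, map_inv, hπg, h2, mul_inv_cancel])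
    exact mul_inv_eq_one.1 h3

/-- PROOF. Let `(L, N)` be local in `K`.
If `L ≤ f.ker`: then `¬ L ≤ g.ker` (`Loc.ne_bot`). `tyr_case g` gives `τ, a, π'`. `exists_glue` with `R = U τ`,
both maps equal to `g` (`f := g`, `p₁ = p₂ = π'`; `h₂`: `(p₂ r)⁻¹ * g x = 1`). `π.range = L`: `π r ∈ L`, and for
`x ∈ L` `g x = π' r = g (π r)` for some `r`, so `x = π r` (both in `L`, on which `g` is injective). `a (π r) = S.ep τ r` by the
fourth property of `tyr_case`.
If `L ≤ g.ker`: the same with `f`.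
Otherwise `tyr_case` for `f` and for `g`: `τ₁, a₁, π₁` and `τ₂, a₂, π₂`. `a₁` and `a₂` are surjective with the same kernel `cen L N`,
so there is `β : TA G τ₁ ≃* TA G τ₂` with `β (a₁ x) = a₂ x` (`QuotientGroup.quotientKerEquivOfSurjective` twice, or
`MonoidHom.liftOfSurjective`); it maps `TB G τ₁ = L.map a₁` to `L.map a₂ = TB G τ₂`. `b` from `S.lift`. `exists_glue` with
`p₁ = π₁`, `p₂ = π₂.comp b`: `h₁`: `π₁.range = L.map f`. `h₃`: `π₂.range = L.map g`. `h₂`: let `x ∈ L`, `f x = π₁ r`. Then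
`a₁ x = S.ep τ₁ r`, `a₂ x = β (a₁ x) = S.ep τ₂ (b r)`. Let `x' ∈ L` with `g x' = π₂ (b r)` (range); `a₂ x' = S.ep τ₂ (b r) = a₂ x`,
so `x'⁻¹ * x ∈ cen L N` commutes with all `y ∈ L` (`Cop.cen_iff`, with `⁅N, L⁆ = ⊥` from `hK`), apply `g`.
`π.range = L`: `π r ∈ L`; for `x ∈ L` there is `r` with `f x = π₁ r = f (π r)`, so `(π r)⁻¹ * x ∈ L ⊓ f.ker ≤ N`
(`loc_inf_ker`), which commutes with `L`. So `L ≤ π.range ⊔ N`, and `L = ⁅L, L⁆ ≤ ⁅π.range ⊔ N, π.range ⊔ N⁆ ≤ π.range`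
(commutators of elements `p * n`, `p' * n'` with central `n, n'` are `⁅p, p'⁆`; `Subgroup.commutator_le`). -/
theorem tyr_sub {G : Type} [Group G] {U : TT G → Type} [∀ τ, Group (U τ)] (S : USys G U)
    {K A B : Type} [Group K] [Finite K] [Group A] [Finite A] [Group B] [Finite B]
    (f : K →* A) (g : K →* B) (hf : Function.Surjective f) (hg : Function.Surjective g)
    (hA : TYR S A) (hB : TYR S B) (hK : CZ K) (h : ∀ x, f x = 1 → g x = 1 → x = 1) :
    TYR S K := by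
  intro L N hLN
  by_cases hLf : L ≤ f.ker
  · exact tyrB_one S g hg hB hLN fun x hx hgx => h x (hLf hx) hgx
  by_cases hLg : L ≤ g.ker
  · exact tyrB_one S f hf hA hLN fun x hx hfx => h x hfx (hLg hx)
  obtain ⟨τ₁, a₁, π₁, ha₁, hk₁, hr₁, he₁, hm₁⟩ := tyr_case S f hf hA hLN hLf
  obtain ⟨τ₂, a₂, π₂, ha₂, hk₂, hr₂, he₂, hm₂⟩ := tyr_case S g hg hB hLN hLg
  have hN0 := hK L N hLN
  obtain ⟨β, hβ⟩ := tyrB_equiv a₁ a₂ ha₁ ha₂ fun x => by rw [hk₁, hk₂]
  have hβB : (TB G τ₁).map β.toMonoidHom = TB G τ₂ := by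
    rw [← hm₁, ← hm₂, Subgroup.map_map]
    congr 1
    exact MonoidHom.ext hβ
  obtain ⟨b, hb⟩ := S.lift τ₁ τ₂ β hβB
  have hr1 : ∀ r, π₁ r ∈ L.map f := fun r => by
    rw [← hr₁]
    exact ⟨r, rfl⟩
  have hr2 : ∀ r, π₂ (b r) ∈ L.map g := fun r => by
    rw [← hr₂]
    exact ⟨b r, rfl⟩
  obtain ⟨π, hπL, hπf, -⟩ := exists_glue (S.perf τ₁) L f g π₁ (π₂.comp b.toMonoidHom)
    (fun x _ => h x)
    (fun r => by
      obtain ⟨x, hx, hfx⟩ := hr1 r
      exact ⟨x, hx, hfx⟩)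
    (fun r x _ hfx y hy => by
      obtain ⟨x', hx', hgx'⟩ := hr2 r
      have e1 : a₂ x' = S.ep τ₂ (b r) := he₂ x' (b r) hgx'
      have e2 : a₂ x = S.ep τ₂ (b r) := by
        rw [hb, ← he₁ x r hfx, hβ]
      have e3 : x'⁻¹ * x ∈ cen L N hLN.nN := by
        rw [← hk₂, map_mul, map_inv, e1, e2, inv_mul_cancel]
      have e4 := (Cop.cen_iff hLN hN0 _).1 e3 y hy
      have e5 := e4.map g
      rw [map_mul, map_inv, hgx'] at e5
      exact e5) hr2
  refine ⟨τ₁, a₁, π, ha₁, hk₁, le_antisymm ?_ ?_, fun r => he₁ (π r) r (hπf r)⟩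
  · rintro _ ⟨r, rfl⟩
    exact hπL r
  · have hcN : ∀ n ∈ N, ∀ y ∈ L, Commute n y := by
      intro n hn y hy
      have h1 : ⁅n, y⁆ ∈ ⁅N, L⁆ := Subgroup.commutator_mem_commutator hn hy
      rw [hN0, Subgroup.mem_bot] at h1
      exact commutatorElement_eq_one_iff_commute.1 h1
    have hdec : ∀ x ∈ L, ∃ r, ∃ n ∈ N, x = π r * n := by
      intro x hx
      have h1 : f x ∈ π₁.range := by
        rw [hr₁]
        exact Subgroup.mem_map_of_mem f hx
      obtain ⟨r, h2⟩ := h1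
      refine ⟨r, (π r)⁻¹ * x, loc_inf_ker hLN hLf (Subgroup.mem_inf.2 ⟨?_, ?_⟩), ?_⟩
      · exact L.mul_mem (L.inv_mem (hπL r)) hx
      · rw [MonoidHom.mem_ker, map_mul, map_inv, hπf, h2, inv_mul_cancel]
      · rw [mul_inv_cancel_left]
    have h1 : ⁅L, L⁆ ≤ π.range := by
      rw [Subgroup.commutator_le]
      intro x hx y hy
      obtain ⟨r, n, hn, rfl⟩ := hdec x hx
      obtain ⟨t, m, hm, rfl⟩ := hdec y hy
      rw [tyrB_comm_left _ _ _ (hcN n hn _ hy), tyrB_comm_right _ _ _ (hcN m hm _ (hπL r)),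
        ← map_commutatorElement]
      exact ⟨⁅r, t⁆, rfl⟩
    rw [hLN.perf] at h1
    exact h1

theorem tyr_form {G : Type} [Group G] [Finite G] {U : TT G → Type} [∀ τ, Group (U τ)]
    (S : USys G U) (hG : CZ G) (K : Type) [Group K] [Finite K]
    (hK : (form G).mem K) : CZ K ∧ TYR S K :=
  form_induction (G := G) (fun H _ _ => CZ H ∧ TYR S H)
    (fun _ _ _ _ _ _ f hf h => ⟨cz_surj f hf h.1, tyr_surj S f hf h.2⟩)
    (fun _ _ _ _ _ _ _ _ _ f g hf hg hA hB h =>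
      ⟨cz_sub f g hf hg hA.1 hB.1 h, tyr_sub S f g hf hg hA.2 hB.2
        (cz_sub f g hf hg hA.1 hB.1 h) h⟩) ⟨hG, tyr_base S⟩ K hK

end Tz

end MP799fdf
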