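import Pool.Agent.Lib.MP_799fdf_al.Tz.Defs
import Pool.Agent.Lib.MP_799fdf_al.Tz.BuildB
import Pool.Agent.Lib.MP_799fdf_al.Tz.TyrB
import Pool.Agent.Lib.MP_799fdf_al.Tz.FixSecB

/-! # The data of the engine: covers -/

set_option autoImplicit false

open scoped commutatorElement

namespace MP799fdf

namespace Tz

open Inn
open Cop (TT TA TY)
open Tw (TB TC)

variable {G : Type} [Group G] {U : TT G → Type} [∀ τ, Group (U τ)]

instance tht_finite [Finite G] [∀ τ, Finite (U τ)] (S : USys G U) (τ : TT G) :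
    Finite (Tht S τ) := by
  have h1 : Finite (TA G τ ≃* TA G τ) := inferInstance
  have h2 : Finite (U τ ≃* U τ) := inferInstance
  exact inferInstanceAs (Finite (Subtype _))

/-- the data -/
noncomputable def mkEng (S : USys G U) {K : Type} [Group K] (t : LI K → TT G)
    (a : ∀ i, K →* TA G (t i)) (π : ∀ i, U (t i) →* K) (N : LI K → Subgroup K)
    (hN : ∀ i, Loc i.1 (N i)) (h1 : CZ K) (hs : ∀ i, Function.Surjective (a i))
    (hk : ∀ i x, a i x = 1 ↔ x ∈ cen i.1 (N i) (hN i).nN) (hr : ∀ i, (π i).range = i.1)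
    (ha : ∀ i x, a i (π i x) = S.ep (t i) x) (n : ℕ)
    (hn : dser (⊤ : Subgroup K) n ≤ ⨆ i : LI K, i.1) :
    Eng K (LI K) (TT G) (TA G) (TC G) (fun i => U (t i)) (fun i => Tht S (t i)) where
  R := fun i => i.1
  t := t
  al := a
  u := fun τ => QuotientGroup.mk' (TB G τ)
  nR := fun i => (hN i).nR
  comm := fun i j hij x hx y hy =>
    Cop.loc_comm (hN i) (hN j) (h1 i.1 (N i) (hN i)) (h1 j.1 (N j) (hN j))
      (fun h => hij (Subtype.ext h)) x hx y hy
  surj := hs
  usurj := fun τ => QuotientGroup.mk'_surjective (TB G τ)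
  mapR := fun i x => by
    have h2 : TB G (t i) = i.1.map (a i) := by
      rw [← ep_range S (t i), ← hr i, MonoidHom.map_range]
      congr 1
      exact (MonoidHom.ext (ha i)).symm
    rw [QuotientGroup.mk'_apply, QuotientGroup.eq_one_iff, h2]
    exact Subgroup.mem_map
  ker := fun i x => by
    rw [hk i x]
    exact Cop.cen_iff (hN i) (h1 i.1 (N i) (hN i)) x
  n := n
  solv := hn
  pr := fun i => (π i).codRestrict i.1 fun x => (hr i).le ⟨x, rfl⟩
  prs := fun i r => by
    obtain ⟨x, hx⟩ := (hr i).ge r.2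
    exact ⟨x, Subtype.ext hx⟩
  q₀ := fun i => ⟨(MulEquiv.refl _, MulEquiv.refl _), fun _ => rfl, fun _ => rfl⟩
  tw := fun i q => q.1.2.toMonoidHom
  ta := fun i q => q.1.1
  tw₀ := fun i x => rfl
  ta₀ := fun i x => rfl
  uta := fun i q x => q.2.2 x
  comp := fun i q x => by
    show a i (π i (q.1.2 x)) = q.1.1 (a i (π i x))
    rw [ha, ha]
    exact q.2.1 x
  conj := fun i α => by
    obtain ⟨b, hb⟩ := exists_conj S (t i) α
    refine ⟨b.toMonoidHom, fun q k hkq x => ?_⟩
    have h3 := eqv S (hN i) (h1 i.1 (N i) (hN i)) (hk i) (hr i) (ha i) k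
      ((q.1.2.toMonoidHom.comp b.toMonoidHom).comp q.1.2.symm.toMonoidHom) (fun y => ?_)
      (q.1.2 x)
    · have h4 : ((q.1.2.toMonoidHom.comp b.toMonoidHom).comp q.1.2.symm.toMonoidHom)
          (q.1.2 x) = q.1.2 (b x) := by
        show q.1.2 (b (q.1.2.symm (q.1.2 x))) = _
        rw [MulEquiv.symm_apply_apply]
      rw [h4] at h3
      exact h3
    · show S.ep (t i) (q.1.2 (b (q.1.2.symm y))) = _
      rw [q.2.1, hb, map_mul, map_mul, map_inv, ← q.2.1, MulEquiv.apply_symm_apply, ← hkq]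

end Tz

end MP799fdf
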