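import Pool.Agent.Lib.MP_799fdf_al.Tw.Defs

/-!
# MP_799fdf_al, outer parts with twists: definitions
-/

set_option autoImplicit false

open scoped commutatorElement

namespace MP799fdf

namespace Tz

open Tw (Fx YY XX Fac lab)

/-- Local subgroups `R i` with actions `al i` on them, of types `t i`; the outer part of type `τ` is
`u τ : A τ → C τ`. `R i` is the image of `W i`, and the twists `q : Q i` act on `W i` and on `A (t i)`, trivially
on the outer part. -/
structure Eng (K : Type) [Group K] (ι T : Type) (A C : T → Type) [∀ τ, Group (A τ)]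
    [∀ τ, Group (C τ)] (W Q : ι → Type) [∀ i, Group (W i)] where
  R : ι → Subgroup K
  t : ι → T
  al : ∀ i, K →* A (t i)
  u : ∀ τ, A τ →* C τ
  nR : ∀ i, (R i).Normal
  comm : ∀ i j, i ≠ j → ∀ x ∈ R i, ∀ y ∈ R j, Commute x y
  surj : ∀ i, Function.Surjective (al i)
  usurj : ∀ τ, Function.Surjective (u τ)
  mapR : ∀ i a, u (t i) a = 1 ↔ ∃ r ∈ R i, al i r = a
  ker : ∀ i x, al i x = 1 ↔ ∀ y ∈ R i, Commute x y
  n : ℕ
  solv : dser (⊤ : Subgroup K) n ≤ ⨆ i, R i
  pr : ∀ i, W i →* R i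
  prs : ∀ i, Function.Surjective (pr i)
  q₀ : ∀ i, Q i
  tw : ∀ i, Q i → W i →* W i
  ta : ∀ i, Q i → A (t i) ≃* A (t i)
  tw₀ : ∀ i x, tw i (q₀ i) x = x
  ta₀ : ∀ i a, ta i (q₀ i) a = a
  uta : ∀ i q a, u (t i) (ta i q a) = u (t i) a
  comp : ∀ i q x, al i (pr i (tw i q x)) = ta i q (al i (pr i x))
  conj : ∀ i (a : A (t i)), ∃ κ : W i →* W i, ∀ q k, al i k = ta i q a → ∀ x,
    (pr i (tw i q (κ x)) : K) = k * pr i (tw i q x) * k⁻¹

/-- the parameters -/
abbrev EE (K Y ι : Type) (Q : ι → Type) : Type := Fx K Y × Option ι × ∀ i, Q i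

namespace Eng

variable {K : Type} [Group K] {ι T : Type} {A C : T → Type} [∀ τ, Group (A τ)]
  [∀ τ, Group (C τ)] {W Q : ι → Type} [∀ i, Group (W i)] (D : Eng K ι T A C W Q)

/-- the outer part of the action on `R i` -/
def rho (i : ι) : K →* C (D.t i) := (D.u (D.t i)).comp (D.al i)

/-- the function of `i` under the parameter `e` -/
abbrev trD {Y : Type} (e : EE K Y ι Q) (i : ι) : K × Y → C (D.t i) := fun x => D.rho i (e.1.1 x)

variable [DecidableEq ι]

/-- the point of `i` under the parameter `e` -/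
abbrev ptD {Y : Type} (e : EE K Y ι Q) (i : ι) : XX K Y ι C := ⟨D.t i, (D.trD e i, lab e.2.1 i)⟩

/-- the free subdirect power -/
def Pi (Y : Type) : Subgroup (EE K Y ι Q → K) where
  carrier := {f | ∃ g : ∀ x : XX K Y ι C, A x.1, ∀ e i,
    D.al i (f e) = D.ta i (e.2.2 i) (g (D.ptD e i))}
  one_mem' := ⟨fun _ => 1, fun e i => by
    rw [Pi.one_apply, map_one]
    exact (map_one (D.ta i (e.2.2 i))).symm⟩
  mul_mem' := by
    rintro f f' ⟨g, hg⟩ ⟨g', hg'⟩
    refine ⟨fun x => g x * g' x, fun e i => ?_⟩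
    rw [Pi.mul_apply, map_mul, hg, hg']
    exact (map_mul (D.ta i (e.2.2 i)) _ _).symm
  inv_mem' := by
    rintro f ⟨g, hg⟩
    refine ⟨fun x => (g x)⁻¹, fun e i => ?_⟩
    rw [Pi.inv_apply, map_inv, hg]
    exact (map_inv (D.ta i (e.2.2 i)) _).symm

variable [Fintype ι]

/-- multiplication `∏ R i → K` -/
noncomputable def P : (∀ i, D.R i) →* K :=
  Subgroup.noncommPiCoprod fun i j hij x y hx hy => D.comm i j hij x hx y hy

/-- the normal subgroup of `Pi` belonging to a set `Z` of points -/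
def M {Y : Type} (Z : Finset (XX K Y ι C)) : Subgroup (EE K Y ι Q → K) where
  carrier := {f | ∃ r : ∀ i, (K × Y → C (D.t i)) × Option ι → W i,
    (∃ g : ∀ x : XX K Y ι C, A x.1, ∀ i w, D.al i (D.pr i (r i w)) = g ⟨D.t i, w⟩) ∧
    (∀ i w, (⟨D.t i, w⟩ : XX K Y ι C) ∈ Z → r i w = 1) ∧
    ∀ e, f e = D.P fun i => D.pr i (D.tw i (e.2.2 i) (r i (D.trD e i, lab e.2.1 i)))}
  one_mem' := by
    refine ⟨fun _ _ => 1, ⟨fun _ => 1, fun i w => by rw [map_one]; exact map_one (D.al i)⟩,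
      fun _ _ _ => rfl, fun e => ?_⟩
    have h : (fun i => D.pr i (D.tw i (e.2.2 i) (1 : W i))) = 1 := by
      funext i
      rw [map_one, map_one]
      rfl
    rw [h, map_one]
    rfl
  mul_mem' := by
    rintro f f' ⟨r, ⟨g, hg⟩, hZ, hf⟩ ⟨r', ⟨g', hg'⟩, hZ', hf'⟩
    refine ⟨fun i w => r i w * r' i w, ⟨fun x => g x * g' x, fun i w => ?_⟩, fun i w h => ?_,
      fun e => ?_⟩
    · rw [map_mul, Subgroup.coe_mul, map_mul, hg, hg']
    · show r i w * r' i w = 1
      rw [hZ i w h, hZ' i w h, one_mul]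
    · rw [Pi.mul_apply, hf, hf', ← map_mul]
      congr 1
      funext i
      rw [map_mul, map_mul]
      rfl
  inv_mem' := by
    rintro f ⟨r, ⟨g, hg⟩, hZ, hf⟩
    refine ⟨fun i w => (r i w)⁻¹, ⟨fun x => (g x)⁻¹, fun i w => ?_⟩, fun i w h => ?_, fun e => ?_⟩
    · rw [map_inv, Subgroup.coe_inv, map_inv, hg]
    · show (r i w)⁻¹ = 1
      rw [hZ i w h, inv_one]
    · rw [Pi.inv_apply, hf, ← map_inv]
      congr 1
      funext i
      rw [map_inv, map_inv]
      rfl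

end Eng

end Tz

end MP799fdf
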