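import Pool.Agent.Lib.MP_799fdf_al.Tz.USys

/-! # The action on the covers -/

set_option autoImplicit false

open scoped commutatorElement

namespace MP799fdf

namespace Tz

open Inn
open Cop (TT TA)
open Tw (TB TC)

variable {G : Type} [Group G] {U : TT G → Type} [∀ τ, Group (U τ)] (S : USys G U)

/-- PROOF. `S.lift` for `β = MulAut.conj α`, which maps the normal subgroup `TB G τ` onto itself. -/
theorem exists_conj (τ : TT G) (α : TA G τ) :
    ∃ b : U τ ≃* U τ, ∀ x, S.ep τ (b x) = α * S.ep τ x * α⁻¹ := by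
  have hn : (TB G τ).Normal := inferInstance
  have hmap : (TB G τ).map (MulAut.conj α).toMonoidHom = TB G τ := by
    ext x
    constructor
    · rintro ⟨y, hy, rfl⟩
      exact hn.conj_mem y hy α
    · intro hx
      refine ⟨α⁻¹ * x * α, ?_, ?_⟩
      · have h1 := hn.conj_mem x hx α⁻¹
        rwa [inv_inv] at h1
      · show α * (α⁻¹ * x * α) * α⁻¹ = x
        group
  obtain ⟨b, hb⟩ := S.lift τ τ (MulAut.conj α) hmap
  exact ⟨b, fun x => hb x⟩

variable {K : Type} [Group K] {L N : Subgroup K} {τ : TT G} {a : K →* TA G τ} {π : U τ →* K}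

/-- Elements of `N` commute with the elements of `L`. -/
private theorem eqv_comm (hc : ⁅N, L⁆ = ⊥) {z y : K} (hz : z ∈ N) (hy : y ∈ L) : Commute z y := by
  have h1 := Subgroup.commutator_mem_commutator hz hy
  rw [hc, Subgroup.mem_bot] at h1
  exact commutatorElement_eq_one_iff_commute.1 h1

/-- PROOF. `hom_unique` (`S.perf τ`) with `φ = π.comp b`, `ψ = (MulAut.conj k).toMonoidHom.comp π` and `N`:
`φ r * (ψ r)⁻¹ ∈ L` (`L` is normal), and `a` maps it to
`S.ep τ (b r) * (a k * S.ep τ r * (a k)⁻¹)⁻¹ = 1`, so it is in `L ⊓ cen L N ≤ N` (`loc_inf_cen`). Elements of `N` commute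
with `L` (`hc`). -/
theorem eqv (h : Loc L N) (hc : ⁅N, L⁆ = ⊥) (hk : ∀ x, a x = 1 ↔ x ∈ cen L N h.nN)
    (hr : π.range = L) (ha : ∀ x, a (π x) = S.ep τ x) (k : K) (b : U τ →* U τ)
    (hb : ∀ x, S.ep τ (b x) = a k * S.ep τ x * (a k)⁻¹) (x : U τ) :
    π (b x) = k * π x * k⁻¹ := by
  have hLn := h.nR
  have hL : ∀ r, π r ∈ L := by
    intro r
    rw [← hr]
    exact ⟨r, rfl⟩
  have h1 : π.comp b = (MulAut.conj k).toMonoidHom.comp π := by
    refine hom_unique (S.perf τ) (π.comp b) ((MulAut.conj k).toMonoidHom.comp π) N ?_ ?_ ?_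
    · intro r
      show π (b r) * (k * π r * k⁻¹)⁻¹ ∈ N
      refine loc_inf_cen h (Subgroup.mem_inf.2 ⟨?_, ?_⟩)
      · exact L.mul_mem (hL _) (L.inv_mem (hLn.conj_mem _ (hL r) k))
      · rw [← hk, map_mul, map_inv, map_mul, map_mul, map_inv, ha, ha, hb, mul_inv_cancel]
    · intro z hz r
      exact eqv_comm hc hz (hLn.conj_mem _ (hL r) k)
    · intro z hz w hw
      exact eqv_comm hc hz (h.lt.le hw)
  exact DFunLike.congr_fun h1 x

/-- PROOF. `a (k⁻¹ * k') ∈ TB G τ = (S.ep τ).range` (`ep_range`), so it is `S.ep τ u = a (π u)`, and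
`c = k⁻¹ * k' * (π u)⁻¹` is in `cen L N`, so it commutes with `L` (`Cop.cen_iff`), and `π u ∈ L` commutes with
`N` (`hc`). So `k⁻¹ * k' = c * π u` commutes with `n`. -/
theorem same_act (h : Loc L N) (hc : ⁅N, L⁆ = ⊥) (hk : ∀ x, a x = 1 ↔ x ∈ cen L N h.nN)
    (hr : π.range = L) (ha : ∀ x, a (π x) = S.ep τ x) (k k' : K)
    (hkk : QuotientGroup.mk' (TB G τ) (a k) = QuotientGroup.mk' (TB G τ) (a k')) (n : K)
    (hn : n ∈ N) : k * n * k⁻¹ = k' * n * k'⁻¹ := by
  have h1 : (a k)⁻¹ * a k' ∈ TB G τ := QuotientGroup.eq.1 hkk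
  rw [← ep_range S τ] at h1
  obtain ⟨u, hu⟩ := h1
  have hL : π u ∈ L := by
    rw [← hr]
    exact ⟨u, rfl⟩
  have h2 : k⁻¹ * k' * (π u)⁻¹ ∈ cen L N h.nN := by
    rw [← hk, map_mul, map_mul, map_inv, map_inv, ha, hu, mul_inv_cancel]
  have h3 : Commute (k⁻¹ * k' * (π u)⁻¹) n := (Cop.cen_iff h hc _).1 h2 n (h.lt.le hn)
  have h4 : Commute (π u) n := (eqv_comm hc hn hL).symm
  have h5 : Commute (k⁻¹ * k') n := by
    have h6 := h3.mul_left h4
    rwa [inv_mul_cancel_right] at h6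
  have h7 : k⁻¹ * k' * n = n * (k⁻¹ * k') := h5
  have h8 : k' * n = k * n * k⁻¹ * k' := by
    calc k' * n = k * (k⁻¹ * k' * n) := by group
      _ = k * (n * (k⁻¹ * k')) := by rw [h7]
      _ = k * n * k⁻¹ * k' := by group
  rw [h8, mul_inv_cancel_right]

end Tz

end MP799fdf
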