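import Pool.Agent.Lib.MP_799fdf_al.Tz.PHomA

/-! # The extension property -/

set_option autoImplicit false

open scoped commutatorElement

namespace MP799fdf

namespace Tz

open Tw (Fx YY XX Fac lab)

namespace Eng

variable {K : Type} [Group K] [Finite K] {ι T : Type} {A C : T → Type} [∀ τ, Group (A τ)]
  [∀ τ, Group (C τ)] {W Q : ι → Type} [∀ i, Group (W i)] (D : Eng K ι T A C W Q) [Fintype ι] [DecidableEq ι] {Y : Type}

/-- The labels of `i` and `j` are different. -/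
theorem pt_inj (e : EE K Y ι Q) : Function.Injective (D.ptD e) := by
  intro i j h
  have h1 : lab e.2.1 i = lab e.2.1 j := congrArg (fun x : XX K Y ι C => x.2.2) h
  unfold lab at h1
  split_ifs at h1 with h2 h3
  · rw [h2] at h3
    exact Option.some.inj h3
  · exact Option.some.inj h1

private theorem tz_uta (i : ι) (q : Q i) (a : A (D.t i)) :
    D.u (D.t i) ((D.ta i q).symm a) = D.u (D.t i) a := by
  rw [← D.uta i q, MulEquiv.apply_symm_apply]

/-- `x₀` is an argument with `e.1 x₀ = k`. -/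
theorem exists_g (e : EE K Y ι Q) (k : K) (x₀ : K × Y) (hx : e.1.1 x₀ = k) :
    ∃ g : ∀ x : XX K Y ι C, A x.1, (∀ i, g (D.ptD e i) = (D.ta i (e.2.2 i)).symm (D.al i k)) ∧
      ∀ x, D.u x.1 (g x) = x.2.1 x₀ := by
  have H : ∀ x : XX K Y ι C, ∃ a : A x.1,
      (∀ i (h : D.ptD e i = x),
        a = h ▸ ((D.ta i (e.2.2 i)).symm (D.al i k) : A (D.ptD e i).1)) ∧
      D.u x.1 a = x.2.1 x₀ := by
    intro x
    by_cases h : ∃ i, D.ptD e i = x
    · obtain ⟨i, rfl⟩ := h
      refine ⟨(D.ta i (e.2.2 i)).symm (D.al i k), fun j hj => ?_, ?_⟩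
      · have hij : j = i := D.pt_inj e hj
        subst hij
        rfl
      · show D.u (D.t i) ((D.ta i (e.2.2 i)).symm (D.al i k)) = D.rho i (e.1.1 x₀)
        rw [hx, tz_uta]
        rfl
    · obtain ⟨a, ha⟩ := D.usurj x.1 (x.2.1 x₀)
      exact ⟨a, fun i hi => absurd ⟨i, hi⟩ h, ha⟩
  choose g hg1 hg2 using H
  exact ⟨g, fun i => hg1 (D.ptD e i) i rfl, hg2⟩

/-- `a i * (al i k')⁻¹` has `u = 1`, so it is `al i (r i)`, `r i ∈ R i`. -/
theorem exists_al (k' : K) (a : ∀ i, A (D.t i))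
    (h : ∀ i, D.u (D.t i) (D.al i k') = D.u (D.t i) (a i)) : ∃ x : K, ∀ i, D.al i x = a i := by
  have h1 : ∀ i, ∃ r : D.R i, D.al i r = a i * (D.al i k')⁻¹ := by
    intro i
    obtain ⟨r, hr, hr'⟩ := (D.mapR i (a i * (D.al i k')⁻¹)).1 (by
      rw [map_mul, map_inv, ← h i, mul_inv_cancel])
    exact ⟨⟨r, hr⟩, hr'⟩
  choose r hr using h1
  refine ⟨D.P r * k', fun i => ?_⟩
  rw [map_mul, al_P, hr, inv_mul_cancel_right]

/-- The evaluations are surjective. -/
theorem ext (e : EE K Y ι Q) (k : K) : ∃ f ∈ D.Pi Y, f e = k := by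
  classical
  obtain ⟨y, hy⟩ := e.1.2 k
  obtain ⟨g, hg1, hg2⟩ := D.exists_g e k (k, y) hy
  have H : ∀ e' : EE K Y ι Q, ∃ x : K, ∀ i, D.al i x = D.ta i (e'.2.2 i) (g (D.ptD e' i)) :=
    fun e' => D.exists_al (e'.1.1 (k, y)) (fun i => D.ta i (e'.2.2 i) (g (D.ptD e' i)))
      fun i => by
        rw [D.uta]
        exact (hg2 (D.ptD e' i)).symm
  choose F hF using H
  refine ⟨fun e' => if e' = e then k else F e', ⟨g, fun e' i => ?_⟩, if_pos rfl⟩
  by_cases h : e' = e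
  · subst h
    show D.al i (if e' = e' then k else F e') = D.ta i (e'.2.2 i) (g (D.ptD e' i))
    rw [if_pos rfl, hg1 i, MulEquiv.apply_symm_apply]
  · show D.al i (if e' = e then k else F e') = D.ta i (e'.2.2 i) (g (D.ptD e' i))
    rw [if_neg h]
    exact hF e' i

end Eng

end Tz

end MP799fdf
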