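import Pool.Agent.Lib.MP_799fdf_al.Tz.PHomA
import Pool.Agent.Lib.MP_799fdf_al.Inn.RBA

/-! # The normal subgroups `M Z` -/

set_option autoImplicit false

open scoped commutatorElement

namespace MP799fdf

namespace Tz

open Tw (Fx YY XX Fac lab)

namespace Eng

variable {K : Type} [Group K] [Finite K] {ι T : Type} {A C : T → Type} [∀ τ, Group (A τ)]
  [∀ τ, Group (C τ)] {W Q : ι → Type} [∀ i, Group (W i)] (D : Eng K ι T A C W Q) [Fintype ι] [DecidableEq ι] {Y : Type}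

theorem M_le (Z : Finset (XX K Y ι C)) : D.M Z ≤ (D.Pi Y) := by
  rintro f ⟨r, ⟨g, hg⟩, hZ, hf⟩
  refine ⟨g, fun e i => ?_⟩
  rw [hf e, al_P, D.comp, hg]

/-- `r' i w = κ (r i w)` with `κ` from `D.conj` for `g ⟨t i, w⟩`. -/
theorem M_normal (Z : Finset (XX K Y ι C)) : ((D.M Z).subgroupOf (D.Pi Y)).Normal := by
  refine ⟨fun f' hf' f => ?_⟩
  rw [Subgroup.mem_subgroupOf] at hf' ⊢
  obtain ⟨r, ⟨g', hg'⟩, hZ, hf'⟩ := hf'
  obtain ⟨g, hg⟩ := f.2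
  choose κ hκ using D.conj
  refine ⟨fun i w => κ i (g ⟨D.t i, w⟩) (r i w), ⟨fun x => g x * g' x * (g x)⁻¹, fun i w => ?_⟩,
    fun i w h => ?_, fun e => ?_⟩
  · obtain ⟨k, hk⟩ := D.surj i (g ⟨D.t i, w⟩)
    have h1 := hκ i (g ⟨D.t i, w⟩) (D.q₀ i) k (by rw [D.ta₀]; exact hk) (r i w)
    rw [D.tw₀, D.tw₀] at h1
    rw [h1, map_mul, map_mul, map_inv, hk, hg']
  · show κ i (g ⟨D.t i, w⟩) (r i w) = 1
    rw [hZ i w h, map_one]
  · show (f : EE K Y ι Q → K) e * (f' : EE K Y ι Q → K) e *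
      ((f : EE K Y ι Q → K) e)⁻¹ = _
    rw [hf' e]
    symm
    apply P_conj
    intro i
    exact hκ i (g (D.ptD e i)) (e.2.2 i) ((f : EE K Y ι Q → K) e) (hg e i) _

/-- the subgroup of `Pi` of the `f` that are trivial over `Z` -/
def DZ (Z : Finset (XX K Y ι C)) : Subgroup (EE K Y ι Q → K) where
  carrier := {f | f ∈ (D.Pi Y) ∧ ∀ e i, D.ptD e i ∈ Z → D.al i (f e) = 1}
  one_mem' := ⟨(D.Pi Y).one_mem, fun _ i _ => (D.al i).map_one⟩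
  mul_mem' := by
    rintro f f' ⟨h1, h2⟩ ⟨h3, h4⟩
    refine ⟨(D.Pi Y).mul_mem h1 h3, fun e i h => ?_⟩
    rw [Pi.mul_apply, map_mul, h2 e i h, h4 e i h, one_mul]
  inv_mem' := by
    rintro f ⟨h1, h2⟩
    refine ⟨(D.Pi Y).inv_mem h1, fun e i h => ?_⟩
    rw [Pi.inv_apply, map_inv, h2 e i h, inv_one]

/-- PROOF. Conjugation: `al i (f e * f' e * (f e)⁻¹)`. -/
theorem DZ_normal (Z : Finset (XX K Y ι C)) : ((D.DZ Z).subgroupOf (D.Pi Y)).Normal := by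
  refine ⟨fun f' hf' f => ?_⟩
  rw [Subgroup.mem_subgroupOf] at hf' ⊢
  refine ⟨(f * f' * f⁻¹).2, fun e i h => ?_⟩
  show D.al i ((f : EE K Y ι Q → K) e *
    (f' : EE K Y ι Q → K) e *
    ((f : EE K Y ι Q → K) e)⁻¹) = 1
  rw [map_mul, map_mul, map_inv, hf'.2 e i h, mul_one, mul_inv_cancel]

end Eng

end Tz

end MP799fdf
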