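import Pool.Agent.Lib.MP_799fdf_al.Tz.Defs

/-! # The multiplication homomorphism `P` -/

set_option autoImplicit false

open scoped commutatorElement

namespace MP799fdf

namespace Tz

open Tw (Fx YY XX Fac lab)

namespace Eng

variable {K : Type} [Group K] {ι T : Type} {A C : T → Type} [∀ τ, Group (A τ)]
  [∀ τ, Group (C τ)] {W Q : ι → Type} [∀ i, Group (W i)] (D : Eng K ι T A C W Q) [Fintype ι] [DecidableEq ι]

private theorem P_single (j : ι) (x : D.R j) : D.P (Pi.mulSingle j x) = x := by
  unfold P
  exact Subgroup.noncommPiCoprod_mulSingle j x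

/-- PROOF. `al i` is trivial on `R j`, `j ≠ i` (`D.ker`, `D.comm`). Unfold `P` as `Finset.noncommProd`
(`Subgroup.noncommPiCoprod`, `MonoidHom.noncommPiCoprod`), `Finset.map_noncommProd`,
`Finset.noncommProd_eq_pow_card`/split off the factor `i` (`Finset.noncommProd_insert_of_notMem`). Or: the set of
`r` with the equation is closed under products and contains all `Pi.mulSingle j x`
(`Subgroup.noncommPiCoprod_mulSingle`), which generate (`Pi` induction, e.g. `Subgroup.pi_mem_of_mulSingle_mem`
or `MonoidHom.eq_of_..`; ι finite). -/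
theorem al_P (r : ∀ i, D.R i) (i : ι) : D.al i (D.P r) = D.al i (r i) := by
  have h : (D.al i).comp D.P =
      ((D.al i).comp (D.R i).subtype).comp (Pi.evalMonoidHom (fun i => D.R i) i) := by
    apply MonoidHom.pi_ext
    intro j x
    simp only [MonoidHom.comp_apply, Pi.evalMonoidHom_apply, Subgroup.subtype_apply]
    rw [P_single]
    rcases eq_or_ne j i with rfl | hji
    · rw [Pi.mulSingle_eq_same]
    · rw [Pi.mulSingle_eq_of_ne hji.symm, OneMemClass.coe_one, map_one]
      exact (D.ker i x).2 fun y hy => D.comm j i hji x x.2 y hy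
  exact DFunLike.congr_fun h r

/-- PROOF. Both sides are homomorphisms in `r` (define `r' = conj r`), equal on `Pi.mulSingle`. -/
theorem P_conj (k : K) (r r' : ∀ i, D.R i) (h : ∀ i, (r' i : K) = k * r i * k⁻¹) :
    D.P r' = k * D.P r * k⁻¹ := by
  have hn : ∀ i, (D.R i).Normal := D.nR
  let c : (∀ i, D.R i) →* (∀ i, D.R i) :=
    { toFun := fun s i => ⟨k * s i * k⁻¹, (hn i).conj_mem _ (s i).2 k⟩
      map_one' := by
        funext i
        apply Subtype.ext
        simp
      map_mul' := by
        intro s s'
        funext i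
        apply Subtype.ext
        simp }
  have hc : D.P.comp c = (MulAut.conj k).toMonoidHom.comp D.P := by
    apply MonoidHom.pi_ext
    intro j x
    have e : c (Pi.mulSingle j x) =
        Pi.mulSingle j (⟨k * x * k⁻¹, (hn j).conj_mem _ x.2 k⟩ : D.R j) := by
      funext i
      apply Subtype.ext
      show k * ((Pi.mulSingle j x : ∀ i, D.R i) i : K) * k⁻¹ = _
      rcases eq_or_ne i j with rfl | hij
      · rw [Pi.mulSingle_eq_same, Pi.mulSingle_eq_same]
      · rw [Pi.mulSingle_eq_of_ne hij, Pi.mulSingle_eq_of_ne hij]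
        simp
    rw [MonoidHom.comp_apply, e, P_single, MonoidHom.comp_apply, P_single]
    rfl
  have e2 : r' = c r := by
    funext i
    exact Subtype.ext (h i)
  rw [e2]
  exact DFunLike.congr_fun hc r

/-- PROOF. `Subgroup.noncommPiCoprod_range`. -/
theorem P_range (x : K) (hx : x ∈ ⨆ i, D.R i) : ∃ r : ∀ i, D.R i, D.P r = x := by
  unfold P
  rw [← Subgroup.noncommPiCoprod_range (H := D.R)
    (hcomm := fun i j hij x y hx hy => D.comm i j hij x hx y hy)] at hx
  exact hx

end Eng

end Tz

end MP799fdf
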