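import Pool.Agent.Lib.MP_799fdf_al.Tz.PHomA
import Pool.Agent.Lib.MP_799fdf_al.Tz.PHomB

/-! # Functions in all `M Z` -/

set_option autoImplicit false

open scoped commutatorElement

namespace MP799fdf

namespace Tz

open Tw (Fx YY XX Fac lab)

namespace Eng

variable {K : Type} [Group K] [Finite K] {ι T : Type} {A C : T → Type} [∀ τ, Group (A τ)]
  [∀ τ, Group (C τ)] {W Q : ι → Type} [∀ i, Group (W i)] (D : Eng K ι T A C W Q) [Fintype ι] [DecidableEq ι] {Y : Type}
  [Finite T]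

/-- `Z = {ptD e i}`. -/
theorem al_one {m : ℕ} (hm : 1 ≤ m) (f : EE K Y ι Q → K)
    (hf : ∀ Z : Finset (XX K Y ι C), Z.card ≤ m → f ∈ D.M Z) (e : EE K Y ι Q) (i : ι) :
    D.al i (f e) = 1 := by
  classical
  obtain ⟨r, ⟨g, hg⟩, h1, h2⟩ := hf {D.ptD e i} (by simpa using hm)
  rw [h2, D.al_P, h1 i (D.trD e i, lab e.2.1 i) (Finset.mem_singleton.2 rfl), map_one, map_one]
  exact (D.al i).map_one

private theorem tz_single (j : ι) (x : D.R j) : D.P (Pi.mulSingle j x) = x := by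
  unfold P
  exact Subgroup.noncommPiCoprod_mulSingle j x

private theorem tz_diff (f : EE K Y ι Q → K)
    (r : ∀ i, (K × Y → C (D.t i)) × Option ι → W i)
    (hr : ∀ e, f e = D.P fun i => D.pr i (D.tw i (e.2.2 i) (r i (D.trD e i, lab e.2.1 i))))
    (s : Fx K Y) (J : Option ι) (i : ι) (q : Q i) :
    f (s, J, Function.update D.q₀ i q) * (f (s, J, D.q₀))⁻¹ =
      (D.pr i (D.tw i q (r i (fun x => D.rho i (s.1 x), lab J i))) : K) *
        (D.pr i (r i (fun x => D.rho i (s.1 x), lab J i)) : K)⁻¹ := by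
  rw [hr, hr, ← map_inv, ← map_mul]
  have h1 : ((fun j => D.pr j (D.tw j (Function.update D.q₀ i q j)
      (r j (fun x => D.rho j (s.1 x), lab J j)))) *
      (fun j => D.pr j (D.tw j (D.q₀ j) (r j (fun x => D.rho j (s.1 x), lab J j))))⁻¹ :
      ∀ j, D.R j) =
      Pi.mulSingle i (D.pr i (D.tw i q (r i (fun x => D.rho i (s.1 x), lab J i))) *
        (D.pr i (r i (fun x => D.rho i (s.1 x), lab J i)))⁻¹) := by
    funext j
    rw [Pi.mul_apply, Pi.inv_apply]
    rcases eq_or_ne j i with rfl | hji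
    · rw [Pi.mulSingle_eq_same, Function.update_self, D.tw₀]
    · rw [Pi.mulSingle_eq_of_ne hji, Function.update_of_ne hji, mul_inv_cancel]
  refine (congrArg D.P h1).trans ?_
  rw [tz_single]
  rfl

/-- The values of a representation are fixed by the twists. -/
theorem tw_fix {m : ℕ} (hm : 1 ≤ m) (f : EE K Y ι Q → K)
    (hf : ∀ Z : Finset (XX K Y ι C), Z.card ≤ m → f ∈ D.M Z)
    (r : ∀ i, (K × Y → C (D.t i)) × Option ι → W i)
    (hr : ∀ e, f e = D.P fun i => D.pr i (D.tw i (e.2.2 i) (r i (D.trD e i, lab e.2.1 i))))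
    (s : Fx K Y) (J : Option ι) (i : ι) (q : Q i) :
    D.pr i (D.tw i q (r i (fun x => D.rho i (s.1 x), lab J i))) =
      D.pr i (r i (fun x => D.rho i (s.1 x), lab J i)) := by
  classical
  obtain ⟨r', -, h1, h2⟩ := hf {D.ptD (s, J, D.q₀) i} (by simpa using hm)
  have h3 := tz_diff D f r' h2 s J i q
  have h4 : r' i (fun x => D.rho i (s.1 x), lab J i) = 1 :=
    h1 i (D.trD (s, J, D.q₀) i, lab J i) (Finset.mem_singleton.2 rfl)
  rw [h4, map_one, map_one, Subgroup.coe_one, inv_one, mul_one] at h3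
  have h5 := tz_diff D f r hr s J i q
  rw [h3] at h5
  apply Subtype.ext
  exact (mul_inv_eq_one.1 h5.symm)

/-- The representation by functions with values in the centres. -/
theorem exists_h {m : ℕ} (hm : 1 ≤ m) (f : EE K Y ι Q → K)
    (hf : ∀ Z : Finset (XX K Y ι C), Z.card ≤ m → f ∈ D.M Z)
    (Z : Finset (XX K Y ι C)) (hZ : Z.card ≤ m) :
    ∃ h : ∀ i, (K × Y → C (D.t i)) × Option ι → D.ZZ,
      (∀ i w, (⟨D.t i, w⟩ : XX K Y ι C) ∈ Z → h i w = 1) ∧
      (∀ (s : Fx K Y) (J : Option ι),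
        f (s, J, D.q₀) = D.zi (∏ i, h i (fun x => D.rho i (s.1 x), lab J i))) ∧
      ∀ (s : Fx K Y) (J : Option ι) (i : ι), ∃ x : W i, (∀ q, D.pr i (D.tw i q x) = D.pr i x) ∧
        D.al i (D.pr i x) = 1 ∧ D.zi (h i (fun x => D.rho i (s.1 x), lab J i)) = D.pr i x := by
  classical
  obtain ⟨r, ⟨g, hg⟩, h1, h2⟩ := hf Z hZ
  let h : ∀ i, (K × Y → C (D.t i)) × Option ι → D.ZZ := fun i w =>
    if hh : D.al i (D.pr i (r i w)) = 1 then
      (⟨(D.pr i (r i w) : K), Subgroup.subset_closure ⟨i, (D.pr i (r i w)).2, hh⟩⟩ :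
        Subgroup.closure D.CC)
    else 1
  have hpos : ∀ i w, D.al i (D.pr i (r i w)) = 1 → D.zi (h i w) = (D.pr i (r i w) : K) := by
    intro i w hh
    have e1 : h i w =
        (⟨(D.pr i (r i w) : K), Subgroup.subset_closure ⟨i, (D.pr i (r i w)).2, hh⟩⟩ :
          Subgroup.closure D.CC) := dif_pos hh
    rw [e1]
    rfl
  have hal : ∀ (s : Fx K Y) (J : Option ι) (i : ι),
      D.al i (D.pr i (r i (fun x => D.rho i (s.1 x), lab J i))) = 1 := by
    intro s J i
    have h3 := D.al_one hm f hf (s, J, D.q₀) i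
    rw [h2, D.al_P, D.tw₀] at h3
    exact h3
  refine ⟨h, fun i w hw => ?_, fun s J => ?_, fun s J i => ?_⟩
  · apply D.zi_inj
    have h3 : r i w = 1 := h1 i w hw
    rw [hpos i w (by rw [h3, map_one]; exact (D.al i).map_one), h3, map_one, map_one]
    rfl
  · rw [h2]
    apply D.P_prod
    intro i
    rw [D.tw₀]
    exact (hpos i _ (hal s J i)).symm
  · exact ⟨r i (fun x => D.rho i (s.1 x), lab J i), D.tw_fix hm f hf r h2 s J i, hal s J i,
      hpos i _ (hal s J i)⟩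

/-- The exponent of `ZZ`. -/
theorem zz_exp {q : ℕ} (hz : ∀ i, ∀ z ∈ D.R i, D.al i z = 1 → z ^ q = 1) (x : D.ZZ) :
    x ^ q = 1 := by
  obtain ⟨y, hy⟩ := x
  apply D.zi_inj
  rw [map_pow, map_one]
  show y ^ q = 1
  have hcomm : ∀ a ∈ Subgroup.closure D.CC, ∀ b ∈ Subgroup.closure D.CC, a * b = b * a := by
    intro a ha b hb
    have h1 : (show D.ZZ from ⟨a, ha⟩) * (show D.ZZ from ⟨b, hb⟩) =
        (show D.ZZ from ⟨b, hb⟩) * (show D.ZZ from ⟨a, ha⟩) := mul_comm (G := D.ZZ) _ _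
    exact congrArg D.zi h1
  refine Subgroup.closure_induction (p := fun y _ => y ^ q = 1) ?_ ?_ ?_ ?_ hy
  · rintro z ⟨i, hzR, hz1⟩
    exact hz i z hzR hz1
  · exact one_pow q
  · intro a b ha hb h1 h2
    have h3 : Commute a b := hcomm a ha b hb
    rw [h3.mul_pow, h1, h2, one_mul]
  · intro a ha h1
    rw [inv_pow, h1, inv_one]

end Eng

end Tz

end MP799fdf
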