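import Pool.Agent.Lib.MP_799fdf_al.Tz.USys

/-! # Local subgroups are quotients of the covers -/

set_option autoImplicit false

open scoped commutatorElement

namespace MP799fdf

namespace Tz

open Inn
open Cop (TT TA)
open Tw (TB TC)

/-- PROOF. `τ = ⟨(L, N), h⟩`, `a = mk'`, `π` from `S.bas`. -/
theorem tyr_base {G : Type} [Group G] {U : TT G → Type} [∀ τ, Group (U τ)] (S : USys G U) :
    TYR S G := by
  intro L N h
  have hn := cen_normal L N h.nR h.nN
  obtain ⟨π, hπ, hπe⟩ := S.bas ⟨(L, N), h⟩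
  exact ⟨⟨(L, N), h⟩, QuotientGroup.mk' (cen L N h.nN), π, QuotientGroup.mk'_surjective _,
    fun x => QuotientGroup.eq_one_iff x, hπ, hπe⟩

/-- PROOF. As `ty_surj` in `Cop/TY.lean`: `loc_lift` gives `(R', N')` in `A`, with `a'` and `π'`;
`a` with `a (f x) = a' x` as there, and `π = f.comp π'` (`range = R'.map f = L`). -/
theorem tyr_surj {G : Type} [Group G] {U : TT G → Type} [∀ τ, Group (U τ)] (S : USys G U)
    {A B : Type} [Group A] [Finite A] [Group B] [Finite B] (f : A →* B)
    (hf : Function.Surjective f) (h : TYR S A) : TYR S B := by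
  intro L N hLN
  obtain ⟨R', N', h', hmap, hN'⟩ := loc_lift f hf hLN
  obtain ⟨τ, a', π', ha', hker, hπ', hae⟩ := h R' N' h'
  have hcomm : ∀ x : A, ∀ y ∈ R', ⁅x, y⁆ ∈ R' := by
    intro x y hy
    rw [commutatorElement_def]
    exact R'.mul_mem (h'.nR.conj_mem y hy x) (R'.inv_mem hy)
  have hiff : ∀ x, x ∈ cen R' N' h'.nN ↔ f x ∈ cen L N hLN.nN := by
    intro x
    rw [mem_cen, mem_cen]
    constructor
    · intro hx y hy
      rw [← hmap] at hy
      obtain ⟨y', hy', rfl⟩ := Subgroup.mem_map.1 hy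
      have h1 := hx y' hy'
      rw [hN'] at h1
      rw [← map_commutatorElement]
      exact h1.2
    · intro hx y hy
      rw [hN']
      refine Subgroup.mem_inf.2 ⟨hcomm x y hy, ?_⟩
      rw [Subgroup.mem_comap, map_commutatorElement]
      refine hx _ ?_
      rw [← hmap]
      exact Subgroup.mem_map_of_mem f hy
  have hle : f.ker ≤ a'.ker := by
    intro x hx
    rw [MonoidHom.mem_ker] at hx ⊢
    rw [hker, hiff, hx]
    exact Subgroup.one_mem _
  have ha : ∀ x, f.liftOfSurjective hf ⟨a', hle⟩ (f x) = a' x := fun x =>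
    MonoidHom.liftOfRightInverse_comp_apply f _ (Function.rightInverse_surjInv hf) ⟨a', hle⟩ x
  refine ⟨τ, f.liftOfSurjective hf ⟨a', hle⟩, f.comp π', ?_, ?_, ?_, ?_⟩
  · intro y
    obtain ⟨x, hx⟩ := ha' y
    exact ⟨f x, by rw [ha, hx]⟩
  · intro x
    obtain ⟨x, rfl⟩ := hf x
    rw [ha, hker, hiff]
  · rw [MonoidHom.range_comp, hπ', hmap]
  · intro x
    rw [MonoidHom.comp_apply, ha, hae]

/-- One factor. PROOF. `(L.map f, N.map f)` is local (`loc_map`); `a = a'.comp f` as in `ty_case`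
(`Cop/TY.lean`; the equivalence for the kernel is proved there). -/
theorem tyr_case {G : Type} [Group G] {U : TT G → Type} [∀ τ, Group (U τ)] (S : USys G U)
    {K A : Type} [Group K] [Finite K] [Group A] [Finite A] (f : K →* A)
    (hf : Function.Surjective f) (hA : TYR S A) {L N : Subgroup K} (h : Loc L N)
    (hL : ¬ L ≤ f.ker) : ∃ (τ : TT G) (a : K →* TA G τ) (π : U τ →* A), Function.Surjective a ∧
      (∀ x, a x = 1 ↔ x ∈ cen L N h.nN) ∧ π.range = L.map f ∧
      (∀ x r, f x = π r → a x = S.ep τ r) ∧ (L.map a = TB G τ) := by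
  obtain ⟨τ, a', π, ha', hker, hπ, hae⟩ := hA _ _ (loc_map f hf h hL)
  refine ⟨τ, a'.comp f, π, ha'.comp hf, fun x => ?_, hπ, ?_, ?_⟩
  · rw [MonoidHom.comp_apply, hker, mem_cen, mem_cen]
    constructor
    · intro hx y hy
      have h1 := hx (f y) (Subgroup.mem_map_of_mem f hy)
      rw [← map_commutatorElement] at h1
      obtain ⟨n, hn, hfn⟩ := Subgroup.mem_map.1 h1
      have h2 : ⁅x, y⁆ * n⁻¹ ∈ L ⊓ f.ker := by
        refine Subgroup.mem_inf.2 ⟨?_, ?_⟩
        · rw [commutatorElement_def]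
          exact L.mul_mem (L.mul_mem (h.nR.conj_mem y hy x) (L.inv_mem hy)) (L.inv_mem (h.lt.le hn))
        · rw [MonoidHom.mem_ker, map_mul, map_inv, hfn, mul_inv_cancel]
      have h3 := N.mul_mem (loc_inf_ker h hL h2) hn
      rwa [inv_mul_cancel_right] at h3
    · intro hx y hy
      obtain ⟨y', hy', rfl⟩ := Subgroup.mem_map.1 hy
      rw [← map_commutatorElement]
      exact Subgroup.mem_map_of_mem f (hx y' hy')
  · intro x r hxr
    rw [MonoidHom.comp_apply, hxr, hae]
  · rw [← ep_range S τ, ← Subgroup.map_map, ← hπ, ← MonoidHom.range_comp]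
    congr 1
    exact MonoidHom.ext hae

end Tz

end MP799fdf
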