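import Pool.Agent.Lib.MP_799fdf_al.Tw.BuildB
import Pool.Agent.Lib.MP_799fdf_al.Knf.BasA

/-! # Systems of covers of the local subgroups -/

set_option autoImplicit false

open scoped commutatorElement

namespace MP799fdf

namespace Tz

open Inn
open Cop (TT TA)
open Tw (TB TC)

/-- For every local pair `τ` of `G` a perfect group `U τ` that is a central extension of the image `TB G τ` of the
local subgroup in `TA G τ`, has the local subgroup as a quotient, and to which isomorphisms lift. -/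
structure USys (G : Type) [Group G] (U : TT G → Type) [∀ τ, Group (U τ)] where
  ep : ∀ τ, U τ →* TA G τ
  perf : ∀ τ, ⁅(⊤ : Subgroup (U τ)), (⊤ : Subgroup (U τ))⁆ = ⊤
  cent : ∀ τ (z : U τ), ep τ z = 1 → ∀ x, Commute z x
  lift : ∀ (τ τ' : TT G) (β : TA G τ ≃* TA G τ'), (TB G τ).map β.toMonoidHom = TB G τ' →
    ∃ b : U τ ≃* U τ', ∀ x, ep τ' (b x) = β (ep τ x)
  bas : ∀ τ, ∃ π : U τ →* G, π.range = τ.1.1 ∧
    ∀ x, QuotientGroup.mk' (cen τ.1.1 τ.1.2 τ.2.nN) (π x) = ep τ x

/-- All local subgroups have central `N`. -/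
def CZ (K : Type) [Group K] : Prop := ∀ L N : Subgroup K, Loc L N → ⁅N, L⁆ = ⊥

/-- Every local subgroup of `K` is a quotient of some `U τ`. -/
def TYR {G : Type} [Group G] {U : TT G → Type} [∀ τ, Group (U τ)] (S : USys G U) (K : Type)
    [Group K] : Prop :=
  ∀ L N : Subgroup K, ∀ h : Loc L N, ∃ (τ : TT G) (a : K →* TA G τ) (π : U τ →* K),
    Function.Surjective a ∧ (∀ x, a x = 1 ↔ x ∈ cen L N h.nN) ∧ π.range = L ∧
      ∀ x, a (π x) = S.ep τ x

/-- PROOF. `S.bas`: `(S.ep τ).range = (mk'.comp π).range = π.range.map mk' = TB G τ`. -/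
theorem ep_range {G : Type} [Group G] {U : TT G → Type} [∀ τ, Group (U τ)] (S : USys G U)
    (τ : TT G) : (S.ep τ).range = TB G τ := by
  obtain ⟨π, hπ, h⟩ := S.bas τ
  have h1 : S.ep τ = (QuotientGroup.mk' (cen τ.1.1 τ.1.2 τ.2.nN)).comp π :=
    MonoidHom.ext fun x => (h x).symm
  rw [h1, ← MonoidHom.map_range, hπ]
  rfl

/-- PROOF. `χ r = φ r * (ψ r)⁻¹ ∈ N`. For commutators: `φ x = χ x * ψ x`, `φ y = χ y * ψ y`, the four elements
`χ x, χ y` commute with `ψ x, ψ y` and with each other, so `φ ⁅x, y⁆ = ψ ⁅x, y⁆`; `φ.eqLocus ψ` contains all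
commutators, so it is `⊤` (compare `Setup.perf_hom` in `Knf/BasA.lean`). -/
theorem hom_unique {R X : Type} [Group R] [Group X]
    (hR : ⁅(⊤ : Subgroup R), (⊤ : Subgroup R)⁆ = ⊤) (φ ψ : R →* X) (N : Subgroup X)
    (hN : ∀ r, φ r * (ψ r)⁻¹ ∈ N) (hc : ∀ z ∈ N, ∀ r, Commute z (ψ r))
    (hcc : ∀ z ∈ N, ∀ w ∈ N, Commute z w) : φ = ψ := by
  have key : (⊤ : Subgroup R) ≤ φ.eqLocus ψ := by
    rw [← hR, Subgroup.commutator_le]
    intro x _ y _
    change φ ⁅x, y⁆ = ψ ⁅x, y⁆
    rw [map_commutatorElement, map_commutatorElement]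
    have hx := hN x
    have hy := hN y
    have e1 : φ x = (φ x * (ψ x)⁻¹) * ψ x := by group
    have e2 : φ y = (φ y * (ψ y)⁻¹) * ψ y := by group
    rw [e1, e2]
    generalize φ x * (ψ x)⁻¹ = u at *
    generalize φ y * (ψ y)⁻¹ = v at *
    have d1 := hc u hx x
    have d2 := hc u hx y
    have d3 := hc v hy x
    have d4 := hc v hy y
    have d5 := hcc u hx v hy
    generalize ψ x = a at *
    generalize ψ y = b at *
    have c1 : Commute u (a * v * b * a⁻¹) := ((d1.mul_right d5).mul_right d2).mul_right d1.inv_right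
    have c2 : Commute v (b * a⁻¹ * b⁻¹) := (d4.mul_right d3.inv_right).mul_right d4.inv_right
    calc ⁅u * a, v * b⁆ = u * (a * v * b * a⁻¹) * u⁻¹ * b⁻¹ * v⁻¹ := by
          rw [commutatorElement_def]
          group
      _ = a * (v * (b * a⁻¹ * b⁻¹)) * v⁻¹ := by
          rw [c1.eq]
          group
      _ = ⁅a, b⁆ := by
          rw [c2.eq, commutatorElement_def]
          group
  exact MonoidHom.ext fun x => key (Subgroup.mem_top x)

private theorem czs_mapN {A B : Type} [Group A] [Group B] (f : A →* B)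
    {L N : Subgroup B} {L' N' : Subgroup A} (h : Loc L N) (h1 : L'.map f = L)
    (h2 : N' = L' ⊓ N.comap f) : N'.map f = N := by
  apply le_antisymm
  · rw [Subgroup.map_le_iff_le_comap, h2]
    exact inf_le_right
  · intro n hn
    have h3 : n ∈ L'.map f := by
      rw [h1]
      exact h.lt.le hn
    obtain ⟨y, hy, rfl⟩ := Subgroup.mem_map.1 h3
    refine Subgroup.mem_map_of_mem f ?_
    rw [h2]
    exact Subgroup.mem_inf.2 ⟨hy, Subgroup.mem_comap.2 hn⟩

private theorem czs_ker {K A : Type} [Group K] [Group A] [Finite A]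
    (f : K →* A) (hf : Function.Surjective f) (hA : CZ A) {L N : Subgroup K} (h : Loc L N) :
    ⁅N, L⁆ ≤ f.ker := by
  by_cases hL : L ≤ f.ker
  · have := h.nR
    exact (Subgroup.commutator_le_right N L).trans hL
  · rw [← Subgroup.map_eq_bot_iff, Subgroup.map_commutator]
    exact hA _ _ (loc_map f hf h hL)

/-- PROOF. `loc_lift`, `N = N'.map f` (see `gd_lift` in `Gen/CP.lean`): `⁅N, L⁆ = ⁅N', L'⁆.map f`. -/
theorem cz_surj {A B : Type} [Group A] [Finite A] [Group B] [Finite B] (f : A →* B)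
    (hf : Function.Surjective f) (h : CZ A) : CZ B := by
  intro L N hLN
  obtain ⟨L', N', h', hmap, hN'⟩ := loc_lift f hf hLN
  have hN := czs_mapN f hLN hmap hN'
  calc ⁅N, L⁆ = ⁅N'.map f, L'.map f⁆ := by rw [hN, hmap]
    _ = (⁅N', L'⁆).map f := (Subgroup.map_commutator _ _ _).symm
    _ = ⊥ := by rw [h L' N' h', Subgroup.map_bot]

/-- PROOF. An element `x` of `⁅N, L⁆` is mapped to `1` by `f` and by `g`: if `L ≤ f.ker` then `⁅N, L⁆ ≤ L ≤ f.ker`;
otherwise `(L.map f, N.map f)` is local (`loc_map`) and `(⁅N, L⁆).map f = ⁅N.map f, L.map f⁆ = ⊥`. -/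
theorem cz_sub {K A B : Type} [Group K] [Finite K] [Group A] [Finite A] [Group B] [Finite B]
    (f : K →* A) (g : K →* B) (hf : Function.Surjective f) (hg : Function.Surjective g)
    (hA : CZ A) (hB : CZ B) (h : ∀ x, f x = 1 → g x = 1 → x = 1) : CZ K := by
  intro L N hLN
  rw [eq_bot_iff]
  intro x hx
  exact Subgroup.mem_bot.2 (h x (czs_ker f hf hA hLN hx) (czs_ker g hg hB hLN hx))

end Tz

end MP799fdf
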